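import Pool.Agent.Rect12.Defs

/-!
Breaker's strategy in the (1:2) game on rectangle lattices: basic notions.
-/

set_option autoImplicit false
set_option linter.unusedVariables false
set_option linter.unusedSectionVars false

namespace Pool.Agent.Rect12

open Finset

/-- index of a lattice: start and step in both coordinates -/
abbrev Idx := (ℕ × ℕ) × (ℕ × ℕ)

/-- the progression with `q` terms, start `p.1` and step `p.2` -/
def ap (q : ℕ) (p : ℕ × ℕ) : Finset ℕ := (range q).image (fun i => p.1 + i * p.2)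

/-- the lattice with index `A` -/
def lat (q : ℕ) (A : Idx) : Finset (ℕ × ℕ) := ap q A.1 ×ˢ ap q A.2

/-- the lattices of the board -/
def fam (N q : ℕ) : Finset Idx :=
  ((Icc 1 N ×ˢ Icc 1 N) ×ˢ (Icc 1 N ×ˢ Icc 1 N)).filter (fun A => lat q A ⊆ board N)

/-- the coordinates of the lattices of a list -/
def vals (q : ℕ) (f : Idx → ℕ × ℕ) (L : List Idx) : Finset ℕ :=
  L.toFinset.biUnion (fun A => ap q (f A))

/-- the grid spanned by the lattices of a list -/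
def hull (q : ℕ) (L : List Idx) : Finset (ℕ × ℕ) := vals q Prod.fst L ×ˢ vals q Prod.snd L

/-- the vectors of the coincidences between the progressions with index in `S` -/
def coinc {ι : Type*} [DecidableEq ι] (q : ℕ) (f : ι → ℕ × ℕ) (S : Set ι) :
    Set (ι × Bool → ℚ) :=
  {v | ∃ A ∈ S, ∃ B ∈ S, ∃ i j : ℕ, i < q ∧ j < q ∧
    (f A).1 + i * (f A).2 = (f B).1 + j * (f B).2 ∧
    v = Pi.single (A, false) (1 : ℚ) + Pi.single (A, true) (i : ℚ) -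
      Pi.single (B, false) (1 : ℚ) - Pi.single (B, true) (j : ℚ)}

/-- the rank of the coincidences -/
noncomputable def rk {ι : Type*} [DecidableEq ι] (q : ℕ) (f : ι → ℕ × ℕ) (S : Set ι) : ℕ :=
  Module.finrank ℚ (Submodule.span ℚ (coinc q f S))

/-- the sum of the ranks in both coordinates -/
noncomputable def rk2 (q : ℕ) (L : List Idx) : ℕ :=
  rk q Prod.fst {A | A ∈ L} + rk q Prod.snd {A | A ∈ L}

/-- certificates: `rp` is the part in the root, `rest` the other part -/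
inductive Cert (q s : ℕ) : List Idx → Finset (ℕ × ℕ) → Finset (ℕ × ℕ) → Prop
  | leaf (A : Idx) (b : Finset (ℕ × ℕ)) (hb : b ⊆ lat q A) (hs : b.card ≤ s) :
      Cert q s [A] (lat q A \ b) ∅
  | att {L1 L2 : List Idx} {rp1 rest1 rp2 rest2 : Finset (ℕ × ℕ)} (h1 : Cert q s L1 rp1 rest1)
      (h2 : Cert q s L2 rp2 rest2) :
      Cert q s (L1 ++ L2) (rp1 \ hull q L2) (rest1 ∪ (rp2 ∪ rest2))
  | mrg {L1 L2 : List Idx} {rp1 rest1 rp2 rest2 : Finset (ℕ × ℕ)} (h1 : Cert q s L1 rp1 rest1)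
      (h2 : Cert q s L2 rp2 rest2) :
      Cert q s (L1 ++ L2) ∅ ((rp1 ∪ rest1) ∪ (rp2 ∪ rest2))

/-- the inequality between the size of a certificate and the rank -/
def Inv (N q s : ℕ) (Λ : ℝ) (L : List Idx) (C : Finset (ℕ × ℕ)) : Prop :=
  ((3 : ℝ) ^ (q ^ 2 - s)) ^ L.length * Λ ^ (L.length - 1) ≤
    (3 : ℝ) ^ C.card * (N : ℝ) ^ rk2 q L

/-- `C` is a certificate of `L` -/
def IsBig (N q s : ℕ) (Λ : ℝ) (L : List Idx) (C : Finset (ℕ × ℕ)) : Prop :=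
  L.Nodup ∧ (∀ A ∈ L, A ∈ fam N q) ∧ Inv N q s Λ L C ∧
    ∃ rp rest : Finset (ℕ × ℕ), Cert q s L rp rest ∧ C = rp ∪ rest

open Classical in
/-- the winning sets of the big game -/
noncomputable def bigFam (N q s : ℕ) (Λ : ℝ) (m0 M1 : ℕ) : Finset (Finset (ℕ × ℕ)) :=
  (board N).powerset.filter (fun C => ∃ L : List Idx, m0 ≤ L.length ∧ L.length ≤ M1 ∧
    IsBig N q s Λ L C)

/-- the potential of a family of sets; Maker has `M`, Breaker has `B` -/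
noncomputable def Pot {κ β : Type*} [DecidableEq β] (b : ℝ) (F : Finset κ) (T : κ → Finset β)
    (M B : Finset β) : ℝ :=
  ∑ k ∈ F, if Disjoint (T k) B then (1 / b) ^ (T k \ M).card else 0

/-- a cluster of emergency sets -/
structure Clu where
  S : Finset Idx
  L : List Idx
  rp : Finset (ℕ × ℕ)
  rest : Finset (ℕ × ℕ)

/-- the conditions on a cluster -/
structure CluOK (N q s : ℕ) (Λ : ℝ) (m0 : ℕ) (M B R : Finset (ℕ × ℕ)) (c : Clu) : Prop where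
  sfam : ∀ A ∈ c.S, A ∈ fam N q
  smr : ∀ A ∈ c.S, lat q A ⊆ M ∪ R
  shull : ∀ A ∈ c.S, lat q A ⊆ hull q c.L
  ls : ∀ A ∈ c.L, A ∈ c.S
  nodup : c.L.Nodup
  cert : Cert q s c.L c.rp c.rest
  certM : c.rp ∪ c.rest ⊆ M \ R
  inv : Inv N q s Λ c.L (c.rp ∪ c.rest)
  len : c.L.length < m0
  pot0 : Pot 2 c.S (lat q) M B ≤ 2 * (c.S.card : ℝ) * (1 / 2) ^ s
  pot : ∀ z ∈ board N, z ∉ M → z ∉ B →
    Pot 2 c.S (lat q) (insert z M) B ≤ 2 * (c.S.card : ℝ) * (1 / 2) ^ s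

/-- the conditions on the system `K` of the clusters; `R` is the small board -/
structure Sys (N q s : ℕ) (Λ : ℝ) (m0 : ℕ) (M B R : Finset (ℕ × ℕ)) (K : Finset Clu) : Prop where
  mb : Disjoint M B
  ok : ∀ c ∈ K, CluOK N q s Λ m0 M B R c
  cover : ∀ z ∈ R, ∃ c ∈ K, ∃ A ∈ c.S, z ∈ lat q A
  disj : ∀ c ∈ K, ∀ c' ∈ K, c ≠ c' → ∀ A ∈ c.S, ∀ A' ∈ c'.S, Disjoint (lat q A) (lat q A')

/-- the parameters -/
structure Par (N q s : ℕ) (Λ : ℝ) (m0 : ℕ) : Prop where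
  hN : 1 ≤ N
  hq : 2 ≤ q
  hs : s < q ^ 2
  hm0 : 1 ≤ m0
  hL : 0 < Λ
  hL1 : Λ * 3 ≤ (N : ℝ) ^ 2
  hL2 : Λ * 3 ^ q ≤ (N : ℝ) ^ 3
  hL3 : Λ * 3 ^ (q ^ 2 - q) ≤ (N : ℝ) ^ 4
  hsm : 2 * ((m0 * q : ℕ) : ℝ) ^ 4 * (1 / 2) ^ s < 1
  hbig : 3 * ∑ C ∈ bigFam N q s Λ m0 (q ^ 2 * m0), (1 / 3 : ℝ) ^ C.card < 1

/-- the position `(M, B)` (Maker to move) with small board `R` and system `K` is good -/
structure Rest (N q s : ℕ) (Λ : ℝ) (m0 : ℕ) (M B R : Finset (ℕ × ℕ)) (K : Finset Clu) : Prop where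
  sys : Sys N q s Λ m0 M B R K
  out : ∀ A ∈ fam N q, (∀ c ∈ K, A ∉ c.S) →
    ¬ Disjoint (lat q A) (B \ R) ∨ s < (lat q A \ (M ∪ R)).card
  big0 : Pot 3 (bigFam N q s Λ m0 (q ^ 2 * m0)) id (M \ R) (B ∪ R) < 1
  big : ∀ z ∈ board N, z ∉ M → z ∉ B → z ∉ R →
    Pot 3 (bigFam N q s Λ m0 (q ^ 2 * m0)) id (insert z (M \ R)) (B ∪ R) < 1

/-- the rule of Breaker -/
def Good (N q s : ℕ) (Λ : ℝ) (m0 : ℕ) (M B : Finset (ℕ × ℕ)) : Prop :=
  ∃ (R : Finset (ℕ × ℕ)) (K : Finset Clu), Rest N q s Λ m0 M B R K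

end Pool.Agent.Rect12
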