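import Pool.Agent.Rect12.Count
import Pool.Agent.Rect12.Certs

/-!
The weights of the big game.
-/

set_option autoImplicit false
set_option linter.unusedVariables false
set_option linter.unusedSectionVars false
set_option maxHeartbeats 4000000

namespace Pool.Agent.Rect12

open Finset

section

open Classical in
lemma bs_sum_cover {α β : Type*} (F : Finset α) (I : Finset β) (T : β → Finset α) (w : α → ℝ)
    (c : β → ℝ) (hc : ∀ i ∈ I, 0 ≤ c i) (hcov : ∀ a ∈ F, ∃ i ∈ I, a ∈ T i ∧ w a ≤ c i) :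
    ∑ a ∈ F, w a ≤ ∑ i ∈ I, ((T i).card : ℝ) * c i := by
  rcases F.eq_empty_or_nonempty with rfl | ⟨a0, ha0⟩
  · rw [Finset.sum_empty]
    exact Finset.sum_nonneg fun i hi => mul_nonneg (Nat.cast_nonneg _) (hc i hi)
  obtain ⟨i0, -, -⟩ := hcov a0 ha0
  have hex : ∀ a, ∃ i, a ∈ F → (i ∈ I ∧ a ∈ T i ∧ w a ≤ c i) := by
    intro a
    by_cases ha : a ∈ F
    · obtain ⟨i, h1, h2, h3⟩ := hcov a ha
      exact ⟨i, fun _ => ⟨h1, h2, h3⟩⟩
    · exact ⟨i0, fun h => absurd h ha⟩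
  choose f hf using hex
  calc ∑ a ∈ F, w a ≤ ∑ a ∈ F, c (f a) := Finset.sum_le_sum fun a ha => (hf a ha).2.2
    _ = ∑ i ∈ I, ∑ a ∈ F with f a = i, c (f a) :=
        (Finset.sum_fiberwise_of_maps_to (fun a ha => (hf a ha).1) _).symm
    _ ≤ ∑ i ∈ I, ((T i).card : ℝ) * c i := by
        apply Finset.sum_le_sum
        intro i hi
        have h1 : ∑ a ∈ F with f a = i, c (f a) = ((F.filter (fun a => f a = i)).card : ℝ) * c i := by
          rw [Finset.sum_congr rfl (g := fun _ => c i), Finset.sum_const, nsmul_eq_mul]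
          intro a ha
          rw [(Finset.mem_filter.mp ha).2]
        rw [h1]
        apply mul_le_mul_of_nonneg_right _ (hc i hi)
        have h2 : F.filter (fun a => f a = i) ⊆ T i := by
          intro a ha
          obtain ⟨ha1, ha2⟩ := Finset.mem_filter.mp ha
          have := (hf a ha1).2.1
          rwa [ha2] at this
        exact_mod_cast Finset.card_le_card h2

/-- the sum of the weights of the winning sets of the big game -/
lemma big_sum (N q s m0 M1 K : ℕ) (Λ : ℝ) (hN : 1 ≤ N) (hq : 1 ≤ q) (hΛ : 0 < Λ)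
    (hm0 : 1 ≤ m0) (hM1 : 1 ≤ M1) (hK1 : (q ^ 2 + 1) ^ s ≤ K) (hK2 : 2 * M1 ≤ K) :
    ∑ C ∈ bigFam N q s Λ m0 M1, (1 / 3 : ℝ) ^ C.card ≤
      ∑ m ∈ Icc m0 M1, (K : ℝ) ^ (2 * m - 1) *
        ((2 * (m : ℝ) + 1) * (((q * m : ℕ) : ℝ) ^ 2) ^ (2 * m) * (N : ℝ) ^ (2 * m)) ^ 2 /
        (((3 : ℝ) ^ (q ^ 2 - s)) ^ m * Λ ^ (m - 1)) := by
  have hNr : (1 : ℝ) ≤ (N : ℝ) := by exact_mod_cast hN
  have hex : ∀ i : (Σ m : ℕ, (Fin m → ℕ × ℕ) × (Fin m → ℕ × ℕ)),
      ∃ P : Finset (Finset (ℕ × ℕ) × Finset (ℕ × ℕ)), 1 ≤ i.1 → i.1 ≤ M1 →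
        (P.card ≤ K ^ (2 * i.1 - 1) ∧ ∀ rp rest : Finset (ℕ × ℕ),
          Cert q s (List.ofFn (fun k => (i.2.1 k, i.2.2 k))) rp rest → (rp, rest) ∈ P) := by
    intro i
    by_cases h1 : 1 ≤ i.1
    · by_cases h2 : i.1 ≤ M1
      · obtain ⟨P, hP⟩ := cert_count q s K M1 hK1 hK2 hM1 i.1
          (List.ofFn (fun k => (i.2.1 k, i.2.2 k))) (List.length_ofFn) h1 h2
        exact ⟨P, fun _ _ => hP⟩
      · exact ⟨∅, fun _ h => absurd h h2⟩
    · exact ⟨∅, fun h => absurd h h1⟩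
  choose P hP using hex
  have hcov := bs_sum_cover (bigFam N q s Λ m0 M1)
    ((Icc m0 M1).sigma (fun m => Fintype.piFinset (fun _ : Fin m => Icc 1 N ×ˢ Icc 1 N) ×ˢ
      Fintype.piFinset (fun _ : Fin m => Icc 1 N ×ˢ Icc 1 N)))
    (fun i => (P i).image (fun p => p.1 ∪ p.2)) (fun C => (1 / 3 : ℝ) ^ C.card)
    (fun i => (N : ℝ) ^ rk q i.2.1 Set.univ * (N : ℝ) ^ rk q i.2.2 Set.univ /
      (((3 : ℝ) ^ (q ^ 2 - s)) ^ i.1 * Λ ^ (i.1 - 1)))
    (by intro i _; positivity)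
    (by
      intro C hC
      unfold bigFam at hC
      obtain ⟨-, L, hL1, hL2, hnd, hfam, hinv, rp, rest, hcert, hCe⟩ :=
        (@Finset.mem_filter _ _ (_) _ _).mp hC
      have hgL : List.ofFn (fun k : Fin L.length => ((L.get k).1, (L.get k).2)) = L :=
        List.ofFn_get L
      refine ⟨⟨L.length, (fun k => (L.get k).1, fun k => (L.get k).2)⟩, ?_, ?_, ?_⟩
      · rw [Finset.mem_sigma, Finset.mem_Icc, Finset.mem_product, Fintype.mem_piFinset,
          Fintype.mem_piFinset]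
        have hmem : ∀ k : Fin L.length, L.get k ∈ (Icc 1 N ×ˢ Icc 1 N) ×ˢ (Icc 1 N ×ˢ Icc 1 N) := by
          intro k
          have h1 := hfam (L.get k) (List.get_mem L k)
          unfold fam at h1
          exact (Finset.mem_filter.mp h1).1
        exact ⟨⟨hL1, hL2⟩, fun k => (Finset.mem_product.mp (hmem k)).1,
          fun k => (Finset.mem_product.mp (hmem k)).2⟩
      · rw [Finset.mem_image]
        refine ⟨(rp, rest), ?_, hCe.symm⟩
        refine (hP ⟨L.length, (fun k => (L.get k).1, fun k => (L.get k).2)⟩ (hm0.trans hL1)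
          hL2).2 rp rest ?_
        show Cert q s (List.ofFn (fun k : Fin L.length => ((L.get k).1, (L.get k).2))) rp rest
        rw [hgL]
        exact hcert
      · show (1 / 3 : ℝ) ^ C.card ≤ (N : ℝ) ^ rk q (fun k => (L.get k).1) Set.univ *
          (N : ℝ) ^ rk q (fun k => (L.get k).2) Set.univ /
          (((3 : ℝ) ^ (q ^ 2 - s)) ^ L.length * Λ ^ (L.length - 1))
        have hrange : {A | A ∈ L} = Set.range L.get := by
          ext A
          rw [Set.mem_range]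
          constructor
          · intro h
            exact List.mem_iff_get.mp h
          · rintro ⟨k, rfl⟩
            exact List.get_mem L k
        have h1 : rk q Prod.fst {A | A ∈ L} ≤ rk q (fun k => (L.get k).1) Set.univ := by
          rw [hrange]
          exact rk_range_le q L.length Prod.fst L.get
        have h2 : rk q Prod.snd {A | A ∈ L} ≤ rk q (fun k => (L.get k).2) Set.univ := by
          rw [hrange]
          exact rk_range_le q L.length Prod.snd L.get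
        have h3 : (N : ℝ) ^ rk2 q L ≤ (N : ℝ) ^ rk q (fun k => (L.get k).1) Set.univ *
            (N : ℝ) ^ rk q (fun k => (L.get k).2) Set.univ := by
          rw [← pow_add]
          unfold rk2
          exact pow_le_pow_right₀ hNr (Nat.add_le_add h1 h2)
        unfold Inv at hinv
        rw [one_div, inv_pow, inv_eq_one_div, div_le_div_iff₀ (by positivity) (by positivity),
          one_mul]
        calc ((3 : ℝ) ^ (q ^ 2 - s)) ^ L.length * Λ ^ (L.length - 1)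
            ≤ (3 : ℝ) ^ C.card * (N : ℝ) ^ rk2 q L := hinv
          _ ≤ (3 : ℝ) ^ C.card * ((N : ℝ) ^ rk q (fun k => (L.get k).1) Set.univ *
            (N : ℝ) ^ rk q (fun k => (L.get k).2) Set.univ) := by gcongr
          _ = _ := mul_comm _ _)
  refine hcov.trans ?_
  rw [Finset.sum_sigma]
  apply Finset.sum_le_sum
  intro m hm
  rw [Finset.mem_Icc] at hm
  have hm1 : 1 ≤ m := hm0.trans hm.1
  have hrc := rank_count N q m hN hq hm1
  obtain ⟨D, hD⟩ : ∃ D : ℝ, D = ((3 : ℝ) ^ (q ^ 2 - s)) ^ m * Λ ^ (m - 1) := ⟨_, rfl⟩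
  have hD0 : 0 < D := by rw [hD]; positivity
  rw [← hD]
  obtain ⟨X, hX⟩ : ∃ X : Finset (Fin m → ℕ × ℕ),
      X = Fintype.piFinset (fun _ : Fin m => Icc 1 N ×ˢ Icc 1 N) := ⟨_, rfl⟩
  rw [← hX] at hrc ⊢
  obtain ⟨R, hR⟩ : ∃ R : ℝ, R =
      (2 * (m : ℝ) + 1) * (((q * m : ℕ) : ℝ) ^ 2) ^ (2 * m) * (N : ℝ) ^ (2 * m) := ⟨_, rfl⟩
  rw [← hR] at hrc ⊢
  have hS0 : 0 ≤ ∑ u ∈ X, (N : ℝ) ^ rk q u Set.univ := Finset.sum_nonneg fun u _ => by positivity
  calc ∑ x ∈ X ×ˢ X, (((P ⟨m, x⟩).image (fun p => p.1 ∪ p.2)).card : ℝ) *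
        ((N : ℝ) ^ rk q x.1 Set.univ * (N : ℝ) ^ rk q x.2 Set.univ /
          (((3 : ℝ) ^ (q ^ 2 - s)) ^ m * Λ ^ (m - 1)))
      ≤ ∑ x ∈ X ×ˢ X, (K : ℝ) ^ (2 * m - 1) *
        ((N : ℝ) ^ rk q x.1 Set.univ * (N : ℝ) ^ rk q x.2 Set.univ / D) := by
        apply Finset.sum_le_sum
        intro x _
        rw [← hD]
        apply mul_le_mul_of_nonneg_right _ (by positivity)
        have h1 : ((P ⟨m, x⟩).image (fun p => p.1 ∪ p.2)).card ≤ K ^ (2 * m - 1) :=
          Finset.card_image_le.trans (hP ⟨m, x⟩ hm1 hm.2).1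
        exact_mod_cast h1
    _ = (K : ℝ) ^ (2 * m - 1) / D * ∑ x ∈ X ×ˢ X,
        ((N : ℝ) ^ rk q x.1 Set.univ * (N : ℝ) ^ rk q x.2 Set.univ) := by
        rw [Finset.mul_sum]
        apply Finset.sum_congr rfl
        intro x _
        ring
    _ = (K : ℝ) ^ (2 * m - 1) / D * ((∑ u ∈ X, (N : ℝ) ^ rk q u Set.univ) *
        ∑ u ∈ X, (N : ℝ) ^ rk q u Set.univ) := by
        rw [Finset.sum_mul_sum, Finset.sum_product]
    _ ≤ (K : ℝ) ^ (2 * m - 1) / D * (R * R) := by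
        apply mul_le_mul_of_nonneg_left _ (by positivity)
        exact mul_le_mul hrc hrc hS0 (hS0.trans hrc)
    _ = (K : ℝ) ^ (2 * m - 1) * R ^ 2 / D := by ring

end

end Pool.Agent.Rect12
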