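import Pool.Agent.Rect12.Base

/-!
Lattices and grids.
-/

set_option autoImplicit false
set_option linter.unusedVariables false
set_option linter.unusedSectionVars false
set_option maxHeartbeats 4000000

namespace Pool.Agent.Rect12

open Finset

section

lemma card_ap_le (q : ℕ) (p : ℕ × ℕ) : (ap q p).card ≤ q := by
  unfold ap
  exact Finset.card_image_le.trans (by simp)

lemma mem_ap {q : ℕ} {p : ℕ × ℕ} {x : ℕ} : x ∈ ap q p ↔ ∃ i < q, p.1 + i * p.2 = x := by
  simp [ap]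

lemma card_ap {q : ℕ} {p : ℕ × ℕ} (h : 1 ≤ p.2) : (ap q p).card = q := by
  unfold ap
  rw [Finset.card_image_of_injective, Finset.card_range]
  intro i j hij
  have h1 : i * p.2 = j * p.2 := by
    have : p.1 + i * p.2 = p.1 + j * p.2 := hij
    omega
  exact Nat.eq_of_mul_eq_mul_right h h1

lemma fam_step {N q : ℕ} {A : Idx} (h : A ∈ fam N q) : 1 ≤ A.1.2 ∧ 1 ≤ A.2.2 := by
  simp only [fam, mem_filter, mem_product, mem_Icc] at h
  exact ⟨h.1.1.2.1, h.1.2.2.1⟩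

lemma card_lat {N q : ℕ} {A : Idx} (h : A ∈ fam N q) : (lat q A).card = q ^ 2 := by
  unfold lat
  rw [Finset.card_product, card_ap (fam_step h).1, card_ap (fam_step h).2]
  ring

lemma exists_fam_of_hasLattice {N q : ℕ} (hq : 2 ≤ q) {M : Finset (ℕ × ℕ)} (hM : M ⊆ board N)
    (h : HasLattice q M) : ∃ A ∈ fam N q, lat q A ⊆ M := by
  obtain ⟨a, b, x, y, hx, hy, hM'⟩ := h
  have hsub : lat q ((a, x), (b, y)) ⊆ M := by
    intro z hz
    rw [lat, mem_product, mem_ap, mem_ap] at hz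
    obtain ⟨⟨i, hi, h1⟩, ⟨j, hj, h2⟩⟩ := hz
    have := hM' i j hi hj
    rw [show z = (a + i * x, b + j * y) from Prod.ext h1.symm h2.symm]
    exact this
  refine ⟨((a, x), (b, y)), ?_, hsub⟩
  have h0 := hM (hM' 0 0 (by omega) (by omega))
  have h1 := hM (hM' 1 1 (by omega) (by omega))
  simp only [board, mem_product, mem_Icc] at h0 h1
  simp only [fam, mem_filter, mem_product, mem_Icc]
  refine ⟨⟨⟨⟨by omega, by omega⟩, ⟨by omega, by omega⟩⟩, ⟨⟨by omega, by omega⟩, ⟨by omega, by omega⟩⟩⟩, hsub.trans hM⟩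

lemma vals_append (q : ℕ) (f : Idx → ℕ × ℕ) (L1 L2 : List Idx) :
    vals q f (L1 ++ L2) = vals q f L1 ∪ vals q f L2 := by
  unfold vals
  rw [List.toFinset_append, Finset.union_biUnion]

lemma hull_mono {q : ℕ} {L1 L2 : List Idx} (h : ∀ A ∈ L1, A ∈ L2) :
    hull q L1 ⊆ hull q L2 := by
  have hs : L1.toFinset ⊆ L2.toFinset := by
    intro A hA
    exact List.mem_toFinset.2 (h A (List.mem_toFinset.1 hA))
  unfold hull vals
  exact Finset.product_subset_product (Finset.biUnion_subset_biUnion_of_subset_left _ hs)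
    (Finset.biUnion_subset_biUnion_of_subset_left _ hs)

lemma lat_subset_hull {q : ℕ} {L : List Idx} {A : Idx} (h : A ∈ L) : lat q A ⊆ hull q L := by
  unfold lat hull vals
  exact Finset.product_subset_product
    (Finset.subset_biUnion_of_mem (fun A : Idx => ap q A.1) (List.mem_toFinset.2 h))
    (Finset.subset_biUnion_of_mem (fun A : Idx => ap q A.2) (List.mem_toFinset.2 h))

lemma lat_inter_hull (q : ℕ) (A : Idx) (L : List Idx) :
    lat q A ∩ hull q L =
      (ap q A.1 ∩ vals q Prod.fst L) ×ˢ (ap q A.2 ∩ vals q Prod.snd L) := by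
  unfold lat hull
  ext ⟨x, y⟩
  simp only [mem_inter, mem_product]
  tauto

lemma card_vals_le (q : ℕ) (f : Idx → ℕ × ℕ) (L : List Idx) :
    (vals q f L).card ≤ L.length * q := by
  unfold vals
  calc (L.toFinset.biUnion (fun A => ap q (f A))).card
      ≤ ∑ A ∈ L.toFinset, (ap q (f A)).card := Finset.card_biUnion_le
    _ ≤ ∑ A ∈ L.toFinset, q := Finset.sum_le_sum fun A _ => card_ap_le q (f A)
    _ = L.toFinset.card * q := by rw [Finset.sum_const, smul_eq_mul]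
    _ ≤ L.length * q := Nat.mul_le_mul_right _ (List.toFinset_card_le L)

/-- the number of lattices inside a grid -/
lemma card_sub_grid {N q : ℕ} (hq : 2 ≤ q) (S : Finset Idx) (X Y : Finset ℕ)
    (hS : ∀ A ∈ S, A ∈ fam N q) (h : ∀ A ∈ S, lat q A ⊆ X ×ˢ Y) :
    S.card ≤ (X.card * Y.card) ^ 2 := by
  classical
  have hmap : ∀ A ∈ S, (((A.1.1, A.1.1 + A.1.2), (A.2.1, A.2.1 + A.2.2)) :
      (ℕ × ℕ) × (ℕ × ℕ)) ∈ (X ×ˢ X) ×ˢ (Y ×ˢ Y) := by
    intro A hA
    have hm : ∀ i j : ℕ, i < q → j < q → A.1.1 + i * A.1.2 ∈ X ∧ A.2.1 + j * A.2.2 ∈ Y := by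
      intro i j hi hj
      have : (A.1.1 + i * A.1.2, A.2.1 + j * A.2.2) ∈ lat q A := by
        rw [lat, mem_product, mem_ap, mem_ap]
        exact ⟨⟨i, hi, rfl⟩, ⟨j, hj, rfl⟩⟩
      exact mem_product.1 (h A hA this)
    have h0 := hm 0 0 (by omega) (by omega)
    have h1 := hm 1 1 (by omega) (by omega)
    simp only [zero_mul, add_zero, one_mul] at h0 h1
    simp only [mem_product]
    exact ⟨⟨h0.1, h1.1⟩, ⟨h0.2, h1.2⟩⟩
  have hinj : Set.InjOn (fun A : Idx => (((A.1.1, A.1.1 + A.1.2), (A.2.1, A.2.1 + A.2.2)) :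
      (ℕ × ℕ) × (ℕ × ℕ))) (S : Set Idx) := by
    rintro ⟨⟨a, x⟩, ⟨b, y⟩⟩ _ ⟨⟨a', x'⟩, ⟨b', y'⟩⟩ _ hAB
    simp only [Prod.mk.injEq] at hAB ⊢
    obtain ⟨⟨h1, h2⟩, ⟨h3, h4⟩⟩ := hAB
    refine ⟨⟨h1, by omega⟩, ⟨h3, by omega⟩⟩
  calc S.card ≤ ((X ×ˢ X) ×ˢ (Y ×ˢ Y)).card :=
        Finset.card_le_card_of_injOn _ hmap hinj
    _ = (X.card * Y.card) ^ 2 := by
        rw [Finset.card_product, Finset.card_product, Finset.card_product]
        ring

lemma card_sub_hull {N q : ℕ} (hq : 2 ≤ q) (S : Finset Idx) (L : List Idx)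
    (hS : ∀ A ∈ S, A ∈ fam N q) (h : ∀ A ∈ S, lat q A ⊆ hull q L) :
    S.card ≤ (L.length * q) ^ 4 := by
  refine (card_sub_grid hq S (vals q Prod.fst L) (vals q Prod.snd L) hS h).trans ?_
  have h1 := card_vals_le q Prod.fst L
  have h2 := card_vals_le q Prod.snd L
  calc ((vals q Prod.fst L).card * (vals q Prod.snd L).card) ^ 2
      ≤ ((L.length * q) * (L.length * q)) ^ 2 := Nat.pow_le_pow_left (Nat.mul_le_mul h1 h2) 2
    _ = (L.length * q) ^ 4 := by ring

end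

end Pool.Agent.Rect12
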