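import Pool.Agent.Rect12.Rank

/-!
Counting systems of progressions.
-/

set_option autoImplicit false
set_option linter.unusedVariables false
set_option linter.unusedSectionVars false
set_option maxHeartbeats 4000000

namespace Pool.Agent.Rect12

open Finset

section

/-- number of points of a box in an affine subspace -/
lemma card_affine {J : Type*} [Fintype J] [DecidableEq J] (W : Submodule ℚ (J → ℚ))
    (w0 : J → ℚ) (Bs : J → Finset ℚ) (n : ℕ) (hn1 : 1 ≤ n) (hn : ∀ j, (Bs j).card ≤ n)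
    (D : Finset (J → ℚ)) (hD : ∀ v ∈ D, (∀ j, v j ∈ Bs j) ∧ v - w0 ∈ W) :
    D.card ≤ n ^ Module.finrank ℚ W := by
  induction hd : Module.finrank ℚ W using Nat.strong_induction_on generalizing W w0 D with
  | _ d ih =>
    by_cases hW : W = ⊥
    · -- all points equal
      subst hW
      have h1 : D.card ≤ 1 := by
        rw [Finset.card_le_one]
        intro a ha b hb
        have ha' := (hD a ha).2
        have hb' := (hD b hb).2
        rw [Submodule.mem_bot, sub_eq_zero] at ha' hb'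
        rw [ha', hb']
      exact h1.trans (Nat.one_le_pow _ _ hn1)
    · obtain ⟨w, hwW, hw0⟩ := Submodule.exists_mem_ne_zero_of_ne_bot hW
      obtain ⟨j, hj⟩ := Function.ne_iff.mp hw0
      have hj' : w j ≠ 0 := hj
      set W' : Submodule ℚ (J → ℚ) := W ⊓ LinearMap.ker (LinearMap.proj j : (J → ℚ) →ₗ[ℚ] ℚ)
        with hW'
      have hlt : W' < W := by
        refine lt_of_le_of_ne inf_le_left ?_
        intro h
        have : w ∈ W' := by rw [h]; exact hwW
        rw [hW', Submodule.mem_inf] at this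
        exact hj' this.2
      have hfin : Module.finrank ℚ W' < Module.finrank ℚ W := Submodule.finrank_lt_finrank_of_lt hlt
      have hmaps : ∀ v ∈ D, v j ∈ Bs j := fun v hv => (hD v hv).1 j
      rw [Finset.card_eq_sum_card_fiberwise hmaps]
      have hfib : ∀ t ∈ Bs j, (D.filter (fun v => v j = t)).card ≤
          n ^ Module.finrank ℚ W' := by
        intro t _
        rcases (D.filter (fun v => v j = t)).eq_empty_or_nonempty with he | ⟨v0, hv0⟩
        · rw [he, Finset.card_empty]; exact Nat.zero_le _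
        · refine ih _ (by rw [← hd]; exact hfin) W' v0 _ ?_ rfl
          intro v hv
          rw [Finset.mem_filter] at hv hv0
          refine ⟨(hD v hv.1).1, ?_⟩
          rw [hW', Submodule.mem_inf]
          constructor
          · have : v - v0 = (v - w0) - (v0 - w0) := by abel
            rw [this]
            exact W.sub_mem (hD v hv.1).2 (hD v0 hv0.1).2
          · rw [LinearMap.mem_ker]
            show (v - v0) j = 0
            rw [Pi.sub_apply, hv.2, hv0.2, sub_self]
      calc ∑ t ∈ Bs j, (D.filter (fun v => v j = t)).card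
          ≤ ∑ t ∈ Bs j, n ^ Module.finrank ℚ W' := Finset.sum_le_sum hfib
        _ = (Bs j).card * n ^ Module.finrank ℚ W' := by rw [Finset.sum_const, smul_eq_mul]
        _ ≤ n * n ^ Module.finrank ℚ W' := Nat.mul_le_mul_right _ (hn j)
        _ = n ^ (Module.finrank ℚ W' + 1) := by rw [pow_succ, mul_comm]
        _ ≤ n ^ d := Nat.pow_le_pow_right hn1 (by omega)

end

section

/-- the coincidence vector of an index -/
def rcC (m q : ℕ) (e : Fin m × Fin q × Fin m × Fin q) : Fin m × Bool → ℚ :=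
  Pi.single (e.1, false) (1 : ℚ) + Pi.single (e.1, true) ((e.2.1 : ℕ) : ℚ) -
      Pi.single (e.2.2.1, false) (1 : ℚ) - Pi.single (e.2.2.1, true) ((e.2.2.2 : ℕ) : ℚ)

/-- the vector of a system -/
def rcH (m : ℕ) (u : Fin m → ℕ × ℕ) : Fin m × Bool → ℚ :=
  fun x => if x.2 then ((u x.1).2 : ℚ) else ((u x.1).1 : ℚ)

theorem rcH_inj (m : ℕ) : Function.Injective (rcH m) := by
  intro u v h
  funext k
  have h1 := congrFun h (k, false)
  have h2 := congrFun h (k, true)
  simp only [rcH, Bool.false_eq_true, if_false, if_true, Nat.cast_inj] at h1 h2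
  exact Prod.ext h1 h2

theorem rc_dot (m q : ℕ) (e : Fin m × Fin q × Fin m × Fin q) (u : Fin m → ℕ × ℕ) :
    dotProduct (rcC m q e) (rcH m u) = ((u e.1).1 : ℚ) + (e.2.1 : ℕ) * (u e.1).2
      - (u e.2.2.1).1 - (e.2.2.2 : ℕ) * (u e.2.2.1).2 := by
  unfold rcC
  rw [sub_dotProduct, sub_dotProduct, add_dotProduct]
  simp [rcH]

theorem rc_coinc (m q : ℕ) (u : Fin m → ℕ × ℕ) (v : Fin m × Bool → ℚ)
    (hv : v ∈ coinc q u Set.univ) : ∃ e, rcC m q e = v ∧ dotProduct (rcC m q e) (rcH m u) = 0 := by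
  obtain ⟨A, _, B, _, i, j, hi, hj, heq, rfl⟩ := hv
  refine ⟨(A, ⟨i, hi⟩, B, ⟨j, hj⟩), rfl, ?_⟩
  rw [rc_dot]
  simp only
  have h1 : ((u A).1 : ℚ) + (i : ℚ) * (u A).2 = (u B).1 + (j : ℚ) * (u B).2 := by
    exact_mod_cast heq
  linarith

open Classical in
theorem rc_fiber (N q m ρ : ℕ) (hN : 1 ≤ N) (t : Fin ρ → Fin m × Fin q × Fin m × Fin q)
    (ht : LinearIndependent ℚ (fun i => rcC m q (t i))) :
    ((Fintype.piFinset (fun _ : Fin m => Icc 1 N ×ˢ Icc 1 N)).filter
      (fun u => ∀ i, dotProduct (rcC m q (t i)) (rcH m u) = 0)).card ≤ N ^ (2 * m - ρ) := by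
  let Mx : Matrix (Fin ρ) (Fin m × Bool) ℚ := Matrix.of (fun i => rcC m q (t i))
  have hrank : Mx.rank = ρ := by
    have h1 : LinearIndependent ℚ Mx.row := ht
    rw [h1.rank_matrix, Fintype.card_fin]
  have hdim : Module.finrank ℚ (LinearMap.ker Mx.mulVecLin) = 2 * m - ρ := by
    have h1 := LinearMap.finrank_range_add_finrank_ker Mx.mulVecLin
    rw [Module.finrank_fintype_fun_eq_card, Fintype.card_prod, Fintype.card_fin,
      Fintype.card_bool] at h1
    have h2 : Module.finrank ℚ (LinearMap.range Mx.mulVecLin) = ρ := hrank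
    omega
  have hcard := card_affine (LinearMap.ker Mx.mulVecLin) 0
    (fun _ => (Icc 1 N).image (fun x : ℕ => (x : ℚ))) N hN
    (fun _ => by
      refine card_image_le.trans ?_
      rw [Nat.card_Icc]
      omega)
    (((Fintype.piFinset (fun _ : Fin m => Icc 1 N ×ˢ Icc 1 N)).filter
      (fun u => ∀ i, dotProduct (rcC m q (t i)) (rcH m u) = 0)).image (rcH m))
    (by
      intro v hv
      rw [mem_image] at hv
      obtain ⟨u, hu, rfl⟩ := hv
      rw [mem_filter, Fintype.mem_piFinset] at hu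
      obtain ⟨hu1, hu2⟩ := hu
      refine ⟨?_, ?_⟩
      · rintro ⟨k, b⟩
        have h1 := hu1 k
        rw [mem_product] at h1
        rw [mem_image]
        cases b
        · exact ⟨(u k).1, h1.1, rfl⟩
        · exact ⟨(u k).2, h1.2, rfl⟩
      · rw [sub_zero, LinearMap.mem_ker]
        funext i
        exact hu2 i)
  rw [hdim, card_image_of_injective _ (rcH_inj m)] at hcard
  exact hcard

open Classical in
theorem rc_rank (N q m ρ : ℕ) (hN : 1 ≤ N) :
    ((Fintype.piFinset (fun _ : Fin m => Icc 1 N ×ˢ Icc 1 N)).filter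
      (fun u => rk q u Set.univ = ρ)).card ≤ ((q * m) ^ 2) ^ ρ * N ^ (2 * m - ρ) := by
  have hsub : (Fintype.piFinset (fun _ : Fin m => Icc 1 N ×ˢ Icc 1 N)).filter
      (fun u => rk q u Set.univ = ρ) ⊆
      ((univ : Finset (Fin ρ → Fin m × Fin q × Fin m × Fin q)).filter
        (fun t => LinearIndependent ℚ (fun i => rcC m q (t i)))).biUnion
      (fun t => (Fintype.piFinset (fun _ : Fin m => Icc 1 N ×ˢ Icc 1 N)).filter
      (fun u => ∀ i, dotProduct (rcC m q (t i)) (rcH m u) = 0)) := by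
    intro u hu
    rw [mem_filter] at hu
    obtain ⟨hu1, hu2⟩ := hu
    subst hu2
    obtain ⟨f, hf1, _, hf3⟩ : ∃ f : Fin (rk q u Set.univ) → (Fin m × Bool → ℚ),
        (∀ i, f i ∈ coinc q u Set.univ) ∧
        Submodule.span ℚ (Set.range f) = Submodule.span ℚ (coinc q u Set.univ) ∧
        LinearIndependent ℚ f :=
      Submodule.exists_fun_fin_finrank_span_eq ℚ (coinc q u Set.univ)
    choose t ht1 ht2 using fun i => rc_coinc m q u (f i) (hf1 i)
    rw [mem_biUnion]
    refine ⟨t, ?_, ?_⟩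
    · rw [mem_filter]
      refine ⟨mem_univ _, ?_⟩
      have : (fun i => rcC m q (t i)) = f := funext ht1
      rw [this]
      exact hf3
    · rw [mem_filter]
      exact ⟨hu1, ht2⟩
  refine (card_le_card hsub).trans ?_
  refine (card_biUnion_le_card_mul _ _ (N ^ (2 * m - ρ)) ?_).trans ?_
  · intro t ht
    rw [mem_filter] at ht
    exact rc_fiber N q m ρ hN t ht.2
  · apply Nat.mul_le_mul_right
    refine (card_filter_le _ _).trans ?_
    rw [card_univ, Fintype.card_fun, Fintype.card_fin, Fintype.card_prod, Fintype.card_prod,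
      Fintype.card_prod, Fintype.card_fin, Fintype.card_fin]
    apply le_of_eq
    congr 1
    ring

/-- the weighted number of the systems of `m` progressions -/
lemma rank_count (N q m : ℕ) (hN : 1 ≤ N) (hq : 1 ≤ q) (hm : 1 ≤ m) :
    ∑ u ∈ Fintype.piFinset (fun _ : Fin m => Icc 1 N ×ˢ Icc 1 N),
      (N : ℝ) ^ rk q u Set.univ ≤
    (2 * (m : ℝ) + 1) * (((q * m : ℕ) : ℝ) ^ 2) ^ (2 * m) * (N : ℝ) ^ (2 * m) := by
  classical
  have hrk : ∀ u ∈ Fintype.piFinset (fun _ : Fin m => Icc 1 N ×ˢ Icc 1 N),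
      rk q u Set.univ ∈ range (2 * m + 1) := by
    intro u _
    rw [mem_range]
    have h1 := Submodule.finrank_le (Submodule.span ℚ (coinc q u Set.univ))
    rw [Module.finrank_fintype_fun_eq_card, Fintype.card_prod, Fintype.card_fin,
      Fintype.card_bool] at h1
    unfold rk
    omega
  rw [← sum_fiberwise_of_maps_to hrk]
  have hK : (1 : ℝ) ≤ ((q * m : ℕ) : ℝ) ^ 2 := by
    have h1 : 1 ≤ q * m := Nat.mul_pos hq hm
    have h2 : (1 : ℝ) ≤ ((q * m : ℕ) : ℝ) := by exact_mod_cast h1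
    nlinarith
  have hN' : (1 : ℝ) ≤ N := by exact_mod_cast hN
  have hterm : ∀ ρ ∈ range (2 * m + 1),
      ∑ u ∈ (Fintype.piFinset (fun _ : Fin m => Icc 1 N ×ˢ Icc 1 N)) with rk q u Set.univ = ρ,
        (N : ℝ) ^ rk q u Set.univ ≤ (((q * m : ℕ) : ℝ) ^ 2) ^ (2 * m) * (N : ℝ) ^ (2 * m) := by
    intro ρ hρ
    rw [mem_range] at hρ
    have h1 : ∑ u ∈ (Fintype.piFinset (fun _ : Fin m => Icc 1 N ×ˢ Icc 1 N))
        with rk q u Set.univ = ρ, (N : ℝ) ^ rk q u Set.univ =
        ∑ u ∈ (Fintype.piFinset (fun _ : Fin m => Icc 1 N ×ˢ Icc 1 N))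
        with rk q u Set.univ = ρ, (N : ℝ) ^ ρ := by
      apply sum_congr rfl
      intro u hu
      rw [mem_filter] at hu
      rw [hu.2]
    rw [h1, sum_const, nsmul_eq_mul]
    have h2 : (((Fintype.piFinset (fun _ : Fin m => Icc 1 N ×ˢ Icc 1 N)).filter
      (fun u => rk q u Set.univ = ρ)).card : ℝ) ≤
        (((q * m : ℕ) : ℝ) ^ 2) ^ ρ * (N : ℝ) ^ (2 * m - ρ) := by
      exact_mod_cast rc_rank N q m ρ hN
    calc (((Fintype.piFinset (fun _ : Fin m => Icc 1 N ×ˢ Icc 1 N)).filter
      (fun u => rk q u Set.univ = ρ)).card : ℝ) * (N : ℝ) ^ ρ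
        ≤ (((q * m : ℕ) : ℝ) ^ 2) ^ ρ * (N : ℝ) ^ (2 * m - ρ) * (N : ℝ) ^ ρ := by
          apply mul_le_mul_of_nonneg_right h2 (by positivity)
      _ = (((q * m : ℕ) : ℝ) ^ 2) ^ ρ * (N : ℝ) ^ (2 * m) := by
          rw [mul_assoc, ← pow_add]
          congr 2
          omega
      _ ≤ (((q * m : ℕ) : ℝ) ^ 2) ^ (2 * m) * (N : ℝ) ^ (2 * m) := by
          apply mul_le_mul_of_nonneg_right _ (by positivity)
          exact pow_le_pow_right₀ hK (by omega)
  refine (sum_le_sum hterm).trans ?_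
  rw [sum_const, card_range, nsmul_eq_mul]
  push_cast
  apply le_of_eq
  ring

end

end Pool.Agent.Rect12
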