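import Mathlib

/-!
The (1:2) Maker-Breaker game on the aligned rectangle lattices of the `N × N` board: definitions.
-/

set_option autoImplicit false
set_option linter.unusedVariables false

namespace Pool.Agent.Rect12

open Finset

/-- The `N × N` board. -/
def board (N : ℕ) : Finset (ℕ × ℕ) := Icc 1 N ×ˢ Icc 1 N

/-- A move is the set of the points claimed in it. A play `h` is the list of its moves; the moves
number `0, 2, 4, ...` are made by Maker and the moves number `1, 3, 5, ...` by Breaker.
`unclaimed N h` is the set of the points of the board not claimed in `h`. -/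
def unclaimed (N : ℕ) (h : List (Finset (ℕ × ℕ))) : Finset (ℕ × ℕ) :=
  (board N).filter (fun x => ∀ m ∈ h, x ∉ m)

/-- The number of points claimed in the move after `h`: one by Maker, two by Breaker. -/
def quota (h : List (Finset (ℕ × ℕ))) : ℕ := if h.length % 2 = 0 then 1 else 2

/-- A legal move after `h` consists of `quota h` unclaimed points or, if fewer points are
unclaimed, of all of them (at least one). -/
def IsLegalMove (N : ℕ) (h : List (Finset (ℕ × ℕ))) (m : Finset (ℕ × ℕ)) : Prop :=
  m ⊆ unclaimed N h ∧ m.card = min (quota h) (unclaimed N h).card ∧ m.Nonempty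

/-- All moves of `h` are legal. -/
def IsPlay (N : ℕ) (h : List (Finset (ℕ × ℕ))) : Prop :=
  ∀ (i : ℕ) (hi : i < h.length), IsLegalMove N (h.take i) (h[i]'hi)

/-- The player making the moves with number congruent to `p` modulo 2 follows `σ`: each of these
moves is the value of `σ` at the list of the earlier moves. -/
def Follows (p : ℕ) (σ : List (Finset (ℕ × ℕ)) → Finset (ℕ × ℕ))
    (h : List (Finset (ℕ × ℕ))) : Prop :=
  ∀ (i : ℕ) (hi : i < h.length), i % 2 = p → h[i]'hi = σ (h.take i)

/-- `σ` is a strategy of this player (`p = 0`: Maker, `p = 1`: Breaker): it gives a legal move in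
every position in which the player is to move and which can arise when he follows it. -/
def IsStrategy (N p : ℕ) (σ : List (Finset (ℕ × ℕ)) → Finset (ℕ × ℕ)) : Prop :=
  ∀ h : List (Finset (ℕ × ℕ)), IsPlay N h → Follows p σ h → h.length % 2 = p →
    (unclaimed N h).Nonempty → IsLegalMove N h (σ h)

/-- The point `x` was claimed by Maker in the play `h`. -/
def MakerOwns (h : List (Finset (ℕ × ℕ))) (x : ℕ × ℕ) : Prop :=
  ∃ (i : ℕ) (hi : i < h.length), i % 2 = 0 ∧ x ∈ h[i]'hi

/-- Maker owns all points of some `q × q` aligned rectangle lattice. -/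
def OwnsLattice (h : List (Finset (ℕ × ℕ))) (q : ℕ) : Prop :=
  ∃ a b x y : ℕ, 1 ≤ x ∧ 1 ≤ y ∧ ∀ i j : ℕ, i < q → j < q → MakerOwns h (a + i * x, b + j * y)

/-- Maker (who moves first) has a strategy with which, at the end of every play, he owns all points
of some `q × q` aligned rectangle lattice. -/
def MakerWins (N q : ℕ) : Prop :=
  ∃ σ : List (Finset (ℕ × ℕ)) → Finset (ℕ × ℕ), IsStrategy N 0 σ ∧
    ∀ h : List (Finset (ℕ × ℕ)), IsPlay N h → Follows 0 σ h → unclaimed N h = ∅ →
      OwnsLattice h q

/-- Breaker has a strategy with which, at the end of every play, Maker does not own all points of a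
`q × q` aligned rectangle lattice. -/
def BreakerWins (N q : ℕ) : Prop :=
  ∃ τ : List (Finset (ℕ × ℕ)) → Finset (ℕ × ℕ), IsStrategy N 1 τ ∧
    ∀ h : List (Finset (ℕ × ℕ)), IsPlay N h → Follows 1 τ h → unclaimed N h = ∅ →
      ¬ OwnsLattice h q

/-- A position (Maker's points `M`, Breaker's points `B`, Maker to move) from which Maker can force
that at the end his set `M` has the property `W`, by a rule `Good` on positions. -/
def MakerRule (N : ℕ) (Good : Finset (ℕ × ℕ) → Finset (ℕ × ℕ) → Prop) : Prop :=
  ∀ M B : Finset (ℕ × ℕ), M ⊆ board N → B ⊆ board N → Disjoint M B → Good M B →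
    (board N \ (M ∪ B)).Nonempty → ∃ x ∈ board N \ (M ∪ B),
      ∀ b : Finset (ℕ × ℕ), b ⊆ board N \ (M ∪ B ∪ {x}) →
        b.card = min 2 (board N \ (M ∪ B ∪ {x})).card → Good (M ∪ {x}) (B ∪ b)

/-- The same for Breaker. -/
def BreakerRule (N : ℕ) (Good : Finset (ℕ × ℕ) → Finset (ℕ × ℕ) → Prop) : Prop :=
  ∀ M B : Finset (ℕ × ℕ), M ⊆ board N → B ⊆ board N → Disjoint M B → Good M B →
    ∀ x ∈ board N \ (M ∪ B), ∃ b : Finset (ℕ × ℕ), b ⊆ board N \ (M ∪ B ∪ {x}) ∧
        b.card = min 2 (board N \ (M ∪ B ∪ {x})).card ∧ Good (M ∪ {x}) (B ∪ b)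

/-- the set `M` contains all points of a `q × q` aligned rectangle lattice -/
def HasLattice (q : ℕ) (M : Finset (ℕ × ℕ)) : Prop :=
  ∃ a b x y : ℕ, 1 ≤ x ∧ 1 ≤ y ∧ ∀ i j : ℕ, i < q → j < q → (a + i * x, b + j * y) ∈ M

end Pool.Agent.Rect12
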