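import Pool.Agent.Rect12.Base

/-!
The Erdős–Selfridge potential.
-/

set_option autoImplicit false
set_option linter.unusedVariables false
set_option linter.unusedSectionVars false
set_option maxHeartbeats 4000000

namespace Pool.Agent.Rect12

open Finset

section

variable {κ β : Type*} [DecidableEq β]

/-- the part of the potential through `z` -/
noncomputable def PotT (b : ℝ) (F : Finset κ) (T : κ → Finset β) (M B : Finset β) (z : β) : ℝ :=
  ∑ k ∈ F, if Disjoint (T k) B ∧ z ∈ T k then (1 / b) ^ (T k \ M).card else 0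

lemma potT_insert (b : ℝ) (F : Finset κ) (T : κ → Finset β) (M B : Finset β) (y : β) :
    Pot b F T M (insert y B) = Pot b F T M B - PotT b F T M B y := by
  unfold Pot PotT
  rw [← Finset.sum_sub_distrib]
  refine Finset.sum_congr rfl fun k _ => ?_
  by_cases h1 : Disjoint (T k) B
  · by_cases h2 : y ∈ T k
    · rw [if_neg (fun h => (Finset.disjoint_insert_right.1 h).1 h2), if_pos h1, if_pos ⟨h1, h2⟩,
        sub_self]
    · rw [if_pos (Finset.disjoint_insert_right.2 ⟨h2, h1⟩), if_pos h1, if_neg (fun h => h2 h.2),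
        sub_zero]
  · rw [if_neg (fun h => h1 (Finset.disjoint_insert_right.1 h).2), if_neg h1,
      if_neg (fun h => h1 h.1), sub_zero]

lemma potT_anti (b : ℝ) (hb : 0 < b) (F : Finset κ) (T : κ → Finset β) (M B : Finset β) (y z : β) :
    PotT b F T M (insert y B) z ≤ PotT b F T M B z := by
  unfold PotT
  refine Finset.sum_le_sum fun k _ => ?_
  have h0 : 0 ≤ (1 / b) ^ (T k \ M).card := by positivity
  by_cases h1 : Disjoint (T k) (insert y B) ∧ z ∈ T k
  · rw [if_pos h1, if_pos ⟨(Finset.disjoint_insert_right.1 h1.1).2, h1.2⟩]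
  · rw [if_neg h1]
    split_ifs
    · exact h0
    · exact le_rfl

lemma pot_insert_M (b : ℝ) (j : ℕ) (hb : b = (j : ℝ) + 1) (F : Finset κ) (T : κ → Finset β)
    (M B : Finset β) (z : β) (hz : z ∉ M) :
    Pot b F T (insert z M) B = Pot b F T M B + j * PotT b F T M B z := by
  unfold Pot PotT
  rw [Finset.mul_sum, ← Finset.sum_add_distrib]
  refine Finset.sum_congr rfl fun k _ => ?_
  by_cases h1 : Disjoint (T k) B
  · rw [if_pos h1, if_pos h1]
    by_cases h2 : z ∈ T k
    · rw [if_pos ⟨h1, h2⟩]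
      have e : T k \ M = insert z (T k \ insert z M) := by
        ext a
        simp only [Finset.mem_sdiff, Finset.mem_insert]
        constructor
        · rintro ⟨ha, haM⟩
          by_cases haz : a = z
          · exact Or.inl haz
          · exact Or.inr ⟨ha, fun h => h.elim haz haM⟩
        · rintro (rfl | ⟨ha, haM⟩)
          · exact ⟨h2, hz⟩
          · exact ⟨ha, fun h => haM (Or.inr h)⟩
      have hc : (T k \ M).card = (T k \ insert z M).card + 1 := by
        rw [e, Finset.card_insert_of_notMem]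
        simp
      rw [hc, pow_succ]
      have hb0 : b ≠ 0 := by rw [hb]; positivity
      have : (1 / b) * (1 + j) = 1 := by rw [hb]; field_simp; ring
      linear_combination (-(1 / b) ^ (T k \ insert z M).card) * this
    · rw [if_neg (fun h => h2 h.2), mul_zero, add_zero]
      congr 2
      ext a
      simp only [Finset.mem_sdiff, Finset.mem_insert]
      constructor
      · rintro ⟨ha, haM⟩
        exact ⟨ha, fun h => haM (Or.inr h)⟩
      · rintro ⟨ha, haM⟩
        refine ⟨ha, fun h => h.elim (fun h => h2 (h ▸ ha)) haM⟩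
  · rw [if_neg h1, if_neg h1, if_neg (fun h => h1 h.1), mul_zero, add_zero]

lemma greedy_claim (F : Finset κ) (T : κ → Finset β) (b : ℝ) (hb : 0 < b) (M B Fr : Finset β) :
    ∀ i, i ≤ Fr.card → ∃ Y ⊆ Fr, Y.card = i ∧ ∀ z ∈ Fr \ Y,
      Pot b F T M (B ∪ Y) + i * PotT b F T M (B ∪ Y) z ≤ Pot b F T M B := by
  intro i
  induction i with
  | zero =>
    intro _
    exact ⟨∅, Finset.empty_subset _, Finset.card_empty, fun z _ => by simp⟩
  | succ i ih =>
    intro hi
    obtain ⟨Y, hY, hYc, h⟩ := ih (by omega)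
    have hne : (Fr \ Y).Nonempty := by
      rw [← Finset.card_pos, Finset.card_sdiff_of_subset hY]
      omega
    obtain ⟨y, hy, hmax⟩ := Finset.exists_max_image (Fr \ Y) (fun y => PotT b F T M (B ∪ Y) y) hne
    have hyF := (Finset.mem_sdiff.1 hy).1
    have hyY := (Finset.mem_sdiff.1 hy).2
    refine ⟨insert y Y, ?_, ?_, ?_⟩
    · exact Finset.insert_subset hyF hY
    · rw [Finset.card_insert_of_notMem hyY, hYc]
    · intro z hz
      have hz1 := (Finset.mem_sdiff.1 hz).1
      have hz2 : z ∉ Y := fun h => (Finset.mem_sdiff.1 hz).2 (Finset.mem_insert_of_mem h)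
      have hzY : z ∈ Fr \ Y := Finset.mem_sdiff.2 ⟨hz1, hz2⟩
      have e : B ∪ insert y Y = insert y (B ∪ Y) := Finset.union_insert _ _ _
      rw [e, potT_insert]
      have h1 := potT_anti b hb F T M (B ∪ Y) y z
      have h2 := hmax z hzY
      have h3 := h z hzY
      have hi0 : (0 : ℝ) ≤ i := Nat.cast_nonneg i
      push_cast
      nlinarith

/-- greedy choice of `j` points by Breaker -/
lemma greedy (F : Finset κ) (T : κ → Finset β) (j : ℕ) (M B Fr : Finset β)
    (hM : Disjoint Fr M) : ∃ Y ⊆ Fr, Y.card = min j Fr.card ∧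
      ∀ z ∈ Fr \ Y, Pot ((j : ℝ) + 1) F T (insert z M) (B ∪ Y) ≤ Pot ((j : ℝ) + 1) F T M B := by
  have hb : (0 : ℝ) < (j : ℝ) + 1 := by positivity
  rcases le_total j Fr.card with hj | hj
  · obtain ⟨Y, hY, hYc, h⟩ := greedy_claim F T ((j : ℝ) + 1) hb M B Fr j hj
    refine ⟨Y, hY, by rw [hYc, min_eq_left hj], fun z hz => ?_⟩
    have hzM : z ∉ M := fun h => (Finset.disjoint_left.1 hM (Finset.mem_sdiff.1 hz).1) h
    rw [pot_insert_M _ j rfl F T M (B ∪ Y) z hzM]
    exact h z hz
  · refine ⟨Fr, Finset.Subset.refl _, by rw [min_eq_right hj], fun z hz => ?_⟩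
    simp at hz

end

section

variable {κ β : Type*} [DecidableEq β]

lemma Pot_term_nonneg {b : ℝ} (hb : 0 < b) (T : κ → Finset β) (M B : Finset β) (k : κ) :
    0 ≤ (if Disjoint (T k) B then (1 / b) ^ (T k \ M).card else 0) := by
  split_ifs
  · positivity
  · exact le_refl 0

lemma Pot_nonneg {b : ℝ} (hb : 0 < b) (F : Finset κ) (T : κ → Finset β) (M B : Finset β) :
    0 ≤ Pot b F T M B :=
  Finset.sum_nonneg fun k _ => Pot_term_nonneg hb T M B k

lemma Pot_anti {b : ℝ} (hb : 0 < b) (F : Finset κ) (T : κ → Finset β) (M : Finset β)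
    {B B' : Finset β} (h : B ⊆ B') : Pot b F T M B' ≤ Pot b F T M B := by
  apply Finset.sum_le_sum
  intro k _
  by_cases h1 : Disjoint (T k) B'
  · have h2 : Disjoint (T k) B := h1.mono_right h
    rw [if_pos h1, if_pos h2]
  · rw [if_neg h1]
    exact Pot_term_nonneg hb T M B k

lemma Pot_mono {b : ℝ} (hb : 1 ≤ b) (F : Finset κ) (T : κ → Finset β) {M M' : Finset β}
    (B : Finset β) (h : M ⊆ M') : Pot b F T M B ≤ Pot b F T M' B := by
  have hb0 : 0 < b := by linarith
  apply Finset.sum_le_sum
  intro k _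
  by_cases h1 : Disjoint (T k) B
  · rw [if_pos h1, if_pos h1]
    apply pow_le_pow_of_le_one (by positivity)
    · rw [div_le_one hb0]
      exact hb
    · exact Finset.card_le_card (Finset.sdiff_subset_sdiff (Finset.Subset.refl _) h)
  · rw [if_neg h1, if_neg h1]

lemma Pot_insert {b : ℝ} (F : Finset κ) (T : κ → Finset β) (M B : Finset β) {x : β}
    (h : ∀ k ∈ F, x ∉ T k) : Pot b F T (insert x M) B = Pot b F T M B := by
  apply Finset.sum_congr rfl
  intro k hk
  have h1 : T k \ insert x M = T k \ M := by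
    ext y
    rw [Finset.mem_sdiff, Finset.mem_sdiff, Finset.mem_insert]
    constructor
    · rintro ⟨h2, h3⟩
      exact ⟨h2, fun h4 => h3 (Or.inr h4)⟩
    · rintro ⟨h2, h3⟩
      refine ⟨h2, ?_⟩
      rintro (h4 | h4)
      · rw [h4] at h2
        exact h k hk h2
      · exact h3 h4
  rw [h1]

lemma one_le_Pot {b : ℝ} (hb : 0 < b) {F : Finset κ} {T : κ → Finset β} {M B : Finset β} {k : κ}
    (hk : k ∈ F) (hM : T k ⊆ M) (hB : Disjoint (T k) B) : 1 ≤ Pot b F T M B := by
  have h1 := Finset.single_le_sum (f := fun k => if Disjoint (T k) B then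
    (1 / b) ^ (T k \ M).card else 0) (fun k _ => Pot_term_nonneg hb T M B k) hk
  simp only [if_pos hB] at h1
  have h2 : T k \ M = ∅ := Finset.sdiff_eq_empty_iff_subset.2 hM
  rw [h2, Finset.card_empty, pow_zero] at h1
  exact h1

lemma Pot_union_le {b : ℝ} (hb : 0 < b) [DecidableEq κ] (F G : Finset κ) (T : κ → Finset β)
    (M B : Finset β) : Pot b (F ∪ G) T M B ≤ Pot b F T M B + Pot b G T M B := by
  unfold Pot
  rw [← Finset.sum_union_inter]
  have h1 : 0 ≤ ∑ k ∈ F ∩ G, (if Disjoint (T k) B then (1 / b) ^ (T k \ M).card else 0) :=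
    Finset.sum_nonneg fun k _ => Pot_term_nonneg hb T M B k
  linarith

lemma Pot_biUnion_le {b : ℝ} (hb : 0 < b) [DecidableEq κ] {γ : Type*} (Q : Finset γ)
    (S : γ → Finset κ) (T : κ → Finset β) (M B : Finset β) :
    Pot b (Q.biUnion S) T M B ≤ ∑ c ∈ Q, Pot b (S c) T M B := by
  classical
  induction Q using Finset.induction_on with
  | empty => simp [Pot]
  | insert a s ha ih =>
    rw [Finset.biUnion_insert, Finset.sum_insert ha]
    have h1 := Pot_union_le hb (S a) (s.biUnion S) T M B
    linarith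

lemma Pot_single (k : κ) (T : κ → Finset β) (M B : Finset β) (n : ℕ)
    (hn : n ≤ (T k \ (M ∪ B)).card) : Pot 2 {k} T M B ≤ (1 / 2) ^ n := by
  unfold Pot
  rw [Finset.sum_singleton]
  split_ifs with h1
  · apply pow_le_pow_of_le_one (by norm_num) (by norm_num)
    refine hn.trans (Finset.card_le_card ?_)
    exact Finset.sdiff_subset_sdiff (Finset.Subset.refl _) Finset.subset_union_left
  · positivity

lemma Pot_single_insert (k : κ) (T : κ → Finset β) (M B : Finset β) (n : ℕ)
    (hn : n ≤ (T k \ (M ∪ B)).card) (z : β) :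
    Pot 2 {k} T (insert z M) B ≤ 2 * (1 / 2) ^ n := by
  unfold Pot
  rw [Finset.sum_singleton]
  split_ifs with h1
  · have h2 : (T k \ M).card ≤ (T k \ insert z M).card + 1 := by
      rw [Finset.sdiff_insert]
      have h3 := Finset.pred_card_le_card_erase (s := T k \ M) (a := z)
      omega
    have h4 : n ≤ (T k \ insert z M).card + 1 := by
      refine le_trans (hn.trans (Finset.card_le_card ?_)) h2
      exact Finset.sdiff_subset_sdiff (Finset.Subset.refl _) Finset.subset_union_left
    have h5 : ((1 : ℝ) / 2) ^ ((T k \ insert z M).card + 1) ≤ (1 / 2) ^ n :=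
      pow_le_pow_of_le_one (by norm_num) (by norm_num) h4
    rw [pow_succ] at h5
    linarith
  · positivity

end

end Pool.Agent.Rect12
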