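import Pool.Agent.Rect12.H40Sys

namespace Pool.Agent.Rect12.H40R

open Finset

variable {V ι κ : Type} [DecidableEq V] [DecidableEq ι] [DecidableEq κ] (S : Sys V ι κ)

namespace Sys

/-- Gain and twice the loss at a free point. -/
theorem gain_loss (lam : ℝ) {F : Finset ι} {M : Finset V} {v : V} (hv : v ∉ M) :
    S.L lam F (insert v M) - S.L lam F M =
      2 * (S.L lam F M - S.L lam (F.filter (fun A => v ∉ S.pts A)) M)
      + 3 * (lam * S.K) * S.P F M v
      - 6 * lam * ∑ l ∈ S.lines, (if v ∈ S.lp l then 0 else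
          S.c M l * (S.T (F.filter (fun A => v ∈ S.pts A)) M l) ^ 2) := by
  have h1 : S.W lam F (insert v M) - 3 * S.W lam F M
      + 2 * S.W lam (F.filter (fun A => v ∉ S.pts A)) M = 3 * (lam * S.K) * S.P F M v := by
    unfold W P
    rw [sum_filter, mul_sum, mul_sum, mul_sum, ← sum_sub_distrib, ← sum_add_distrib]
    apply sum_congr rfl
    intro A _
    by_cases h : v ∈ S.pts A
    · rw [S.a_insert_mem hv h, S.k_insert_mem hv h]
      simp only [h, not_true_eq_false, if_false, if_true]
      push_cast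
      ring
    · rw [S.a_insert_not h, S.k_insert_not h]
      simp only [h, not_false_eq_true, if_true, if_false]
      ring
  have h2 : S.Q F (insert v M) - 3 * S.Q F M
      + 2 * S.Q (F.filter (fun A => v ∉ S.pts A)) M =
      6 * ∑ l ∈ S.lines, (if v ∈ S.lp l then 0 else
          S.c M l * (S.T (F.filter (fun A => v ∈ S.pts A)) M l) ^ 2) := by
    unfold Q
    rw [mul_sum, mul_sum, mul_sum, ← sum_sub_distrib, ← sum_add_distrib]
    apply sum_congr rfl
    intro l _
    by_cases h : v ∈ S.lp l
    · have h3 : S.T (F.filter (fun A => v ∉ S.pts A)) M l = 0 :=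
        S.T_kill h (fun A hA => (mem_filter.1 hA).2)
      rw [h3, S.T_insert_mem hv h, S.c_insert_mem hv h]
      simp only [h, if_true]
      ring
    · have h3 := S.T_split F M l (fun A => v ∈ S.pts A)
      rw [S.T_insert hv, S.c_insert_not h]
      simp only [h, if_false]
      have h4 : S.T (F.filter (fun A => v ∉ S.pts A)) M l =
        S.T F M l - S.T (F.filter (fun A => v ∈ S.pts A)) M l := by linarith
      rw [h4]
      ring
  unfold L
  linear_combination h1 - lam * h2

/-- Two kills. -/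
theorem two_kills {lam : ℝ} (hlam : 0 < lam) {F : Finset ι} {M : Finset V} {y z : V}
    (hcl : ∀ G, G ⊆ F → S.L lam G M ≤ S.L lam F M) :
    S.L lam (F.filter (fun A => y ∉ S.pts A)) M + S.L lam (F.filter (fun A => z ∉ S.pts A)) M
      - S.L lam F M
      - lam * (∑ l ∈ S.lines, (if y ∈ S.lp l then 0 else
          S.c M l * (S.T (F.filter (fun A => y ∈ S.pts A)) M l) ^ 2) +
        ∑ l ∈ S.lines, (if z ∈ S.lp l then 0 else
          S.c M l * (S.T (F.filter (fun A => z ∈ S.pts A)) M l) ^ 2))
      ≤ S.L lam (F.filter (fun A => y ∉ S.pts A ∧ z ∉ S.pts A)) M := by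
  have h0 := hcl (F.filter (fun A => ¬ (y ∈ S.pts A ∧ z ∈ S.pts A))) (filter_subset _ _)
  have h1 : S.W lam (F.filter (fun A => y ∉ S.pts A ∧ z ∉ S.pts A)) M
      - S.W lam (F.filter (fun A => y ∉ S.pts A)) M - S.W lam (F.filter (fun A => z ∉ S.pts A)) M
      + S.W lam (F.filter (fun A => ¬ (y ∈ S.pts A ∧ z ∈ S.pts A))) M = 0 := by
    unfold W
    simp only [sum_filter]
    rw [← sum_sub_distrib, ← sum_sub_distrib, ← sum_add_distrib]
    apply sum_eq_zero
    intro A _
    by_cases h : y ∈ S.pts A <;> by_cases h' : z ∈ S.pts A <;> simp [h, h']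
  have h2 : S.Q (F.filter (fun A => y ∉ S.pts A ∧ z ∉ S.pts A)) M
      - S.Q (F.filter (fun A => y ∉ S.pts A)) M - S.Q (F.filter (fun A => z ∉ S.pts A)) M
      + S.Q (F.filter (fun A => ¬ (y ∈ S.pts A ∧ z ∈ S.pts A))) M ≤
      ∑ l ∈ S.lines, (if y ∈ S.lp l then 0 else
          S.c M l * (S.T (F.filter (fun A => y ∈ S.pts A)) M l) ^ 2) +
        ∑ l ∈ S.lines, (if z ∈ S.lp l then 0 else
          S.c M l * (S.T (F.filter (fun A => z ∈ S.pts A)) M l) ^ 2) := by
    unfold Q
    rw [← sum_sub_distrib, ← sum_sub_distrib, ← sum_add_distrib, ← sum_add_distrib]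
    apply sum_le_sum
    intro l _
    -- the four parts
    set r := S.T (F.filter (fun A => y ∉ S.pts A ∧ z ∉ S.pts A)) M l with hr
    set Y := S.T (F.filter (fun A => y ∈ S.pts A ∧ z ∉ S.pts A)) M l with hY
    set Z := S.T (F.filter (fun A => y ∉ S.pts A ∧ z ∈ S.pts A)) M l with hZ
    have e1 : S.T (F.filter (fun A => y ∉ S.pts A)) M l = r + Z := by
      rw [hr, hZ]
      unfold T
      simp only [sum_filter]
      rw [← sum_add_distrib]
      apply sum_congr rfl
      intro A _
      by_cases h : y ∈ S.pts A <;> by_cases h' : z ∈ S.pts A <;> simp [h, h']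
    have e2 : S.T (F.filter (fun A => z ∉ S.pts A)) M l = r + Y := by
      rw [hr, hY]
      unfold T
      simp only [sum_filter]
      rw [← sum_add_distrib]
      apply sum_congr rfl
      intro A _
      by_cases h : y ∈ S.pts A <;> by_cases h' : z ∈ S.pts A <;> simp [h, h']
    have e3 : S.T (F.filter (fun A => ¬ (y ∈ S.pts A ∧ z ∈ S.pts A))) M l = r + Y + Z := by
      rw [hr, hY, hZ]
      unfold T
      simp only [sum_filter]
      rw [← sum_add_distrib, ← sum_add_distrib]
      apply sum_congr rfl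
      intro A _
      by_cases h : y ∈ S.pts A <;> by_cases h' : z ∈ S.pts A <;> simp [h, h']
    have hYn : 0 ≤ Y := S.T_nonneg _ _ _
    have hZn : 0 ≤ Z := S.T_nonneg _ _ _
    have hYle : Y ≤ S.T (F.filter (fun A => y ∈ S.pts A)) M l := by
      apply S.T_mono
      intro A hA
      rw [mem_filter] at hA ⊢
      exact ⟨hA.1, hA.2.1⟩
    have hZle : Z ≤ S.T (F.filter (fun A => z ∈ S.pts A)) M l := by
      apply S.T_mono
      intro A hA
      rw [mem_filter] at hA ⊢
      exact ⟨hA.1, hA.2.2⟩
    have hc := S.c_pos M l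
    rw [e1, e2, e3]
    have e4 : S.c M l * r ^ 2 - S.c M l * (r + Z) ^ 2 - S.c M l * (r + Y) ^ 2 +
      S.c M l * (r + Y + Z) ^ 2 = 2 * S.c M l * (Y * Z) := by ring
    rw [e4]
    by_cases hy : y ∈ S.lp l
    · have hZ0 : Z = 0 := S.T_kill hy (fun A hA => (mem_filter.1 hA).2.1)
      rw [hZ0]
      simp only [hy, if_true, mul_zero, zero_add]
      split_ifs
      · exact le_rfl
      · positivity
    · by_cases hz : z ∈ S.lp l
      · have hY0 : Y = 0 := S.T_kill hz (fun A hA => (mem_filter.1 hA).2.2)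
        rw [hY0]
        simp only [hz, if_true, zero_mul, mul_zero, add_zero]
        split_ifs
        positivity
      · simp only [hy, hz, if_false]
        rw [← mul_add, mul_comm 2, mul_assoc]
        apply mul_le_mul_of_nonneg_left _ hc.le
        nlinarith [sq_nonneg (Y - Z), pow_le_pow_left₀ hYn hYle 2, pow_le_pow_left₀ hZn hZle 2]
  have h3 := mul_le_mul_of_nonneg_left h2 hlam.le
  unfold L at h0 ⊢
  linarith

/-- Interaction between Maker's move and Breaker's answer. -/
theorem interact {lam : ℝ} (hlam : 0 < lam) (hK : lam * S.K * S.s ≤ 1)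
    (hK3 : 3 * (lam * S.K) ≤ 1) {F : Finset ι}
    {M : Finset V} {x y z : V} (hx : x ∉ M) :
    S.L lam (F.filter (fun A => y ∉ S.pts A ∧ z ∉ S.pts A)) M - S.L lam F M
      - 5 * (S.P2 F M x y + S.P2 F M x z)
      + lam * (∑ l ∈ S.lines, (if x ∈ S.lp l ∧ y ∈ S.lp l then S.c M l * (S.T F M l) ^ 2 else 0)
        + ∑ l ∈ S.lines, (if x ∈ S.lp l ∧ z ∈ S.lp l then S.c M l * (S.T F M l) ^ 2 else 0))
      ≤ S.L lam (F.filter (fun A => y ∉ S.pts A ∧ z ∉ S.pts A)) (insert x M)
        - S.L lam F (insert x M) := by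
  have h1 : S.W lam (F.filter (fun A => y ∉ S.pts A ∧ z ∉ S.pts A)) M - S.W lam F M
      - 5 * (S.P2 F M x y + S.P2 F M x z) ≤
      S.W lam (F.filter (fun A => y ∉ S.pts A ∧ z ∉ S.pts A)) (insert x M)
        - S.W lam F (insert x M) := by
    unfold W P2
    rw [sum_filter, sum_filter, ← sum_sub_distrib, ← sum_add_distrib, mul_sum, ← sum_sub_distrib,
      ← sum_sub_distrib]
    apply sum_le_sum
    intro A _
    have ha := S.a_pos M A
    have hk : (S.k M A : ℝ) ≤ S.s := by exact_mod_cast S.k_le M A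
    have hk0 : (0 : ℝ) ≤ S.k M A := by positivity
    have hK0 : (0 : ℝ) ≤ lam * S.K := by positivity
    have hb : lam * S.K * S.k M A ≤ 1 := (mul_le_mul_of_nonneg_left hk hK0).trans hK
    have hb0 : 0 ≤ lam * S.K * S.k M A := by positivity
    by_cases h : x ∈ S.pts A
    · rw [S.a_insert_mem hx h, S.k_insert_mem hx h]
      push_cast
      by_cases h' : y ∈ S.pts A <;> by_cases h'' : z ∈ S.pts A <;> simp [h, h', h''] <;> nlinarith
    · rw [S.a_insert_not h, S.k_insert_not h]
      by_cases h' : y ∈ S.pts A <;> by_cases h'' : z ∈ S.pts A <;> simp [h, h', h'']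
  have h2 : S.Q (F.filter (fun A => y ∉ S.pts A ∧ z ∉ S.pts A)) (insert x M)
        - S.Q F (insert x M)
      + (∑ l ∈ S.lines, (if x ∈ S.lp l ∧ y ∈ S.lp l then S.c M l * (S.T F M l) ^ 2 else 0)
        + ∑ l ∈ S.lines, (if x ∈ S.lp l ∧ z ∈ S.lp l then S.c M l * (S.T F M l) ^ 2 else 0)) ≤
      S.Q (F.filter (fun A => y ∉ S.pts A ∧ z ∉ S.pts A)) M - S.Q F M := by
    unfold Q
    rw [← sum_sub_distrib, ← sum_sub_distrib, ← sum_add_distrib, ← sum_add_distrib]
    apply sum_le_sum
    intro l _
    have hc := S.c_pos (insert x M) l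
    have hc' := S.c_pos M l
    have hT := S.T_nonneg F M l
    have hRT : S.T (F.filter (fun A => y ∉ S.pts A ∧ z ∉ S.pts A)) M l ≤ S.T F M l :=
      S.T_mono (filter_subset _ _) _ _
    have hR := S.T_nonneg (F.filter (fun A => y ∉ S.pts A ∧ z ∉ S.pts A)) M l
    by_cases h : x ∈ S.lp l
    · rw [S.T_insert_mem hx h, S.T_insert_mem hx h, S.c_insert_mem hx h]
      by_cases h' : y ∈ S.lp l
      · have h0 : S.T (F.filter (fun A => y ∉ S.pts A ∧ z ∉ S.pts A)) M l = 0 :=
          S.T_kill h' (fun A hA => (mem_filter.1 hA).2.1)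
        rw [h0]
        by_cases h'' : z ∈ S.lp l
        · simp only [h, h', h'', and_self, if_true]
          nlinarith [mul_nonneg hc.le (sq_nonneg (S.T F M l))]
        · simp only [h, h', h'', and_self, if_true, and_false, if_false]
          nlinarith [mul_nonneg hc.le (sq_nonneg (S.T F M l))]
      · by_cases h'' : z ∈ S.lp l
        · have h0 : S.T (F.filter (fun A => y ∉ S.pts A ∧ z ∉ S.pts A)) M l = 0 :=
            S.T_kill h'' (fun A hA => (mem_filter.1 hA).2.2)
          rw [h0]
          simp only [h, h', h'', and_self, if_true, and_false, if_false]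
          nlinarith [mul_nonneg hc.le (sq_nonneg (S.T F M l))]
        · simp only [h, h', h'', and_false, if_false]
          nlinarith [mul_le_mul_of_nonneg_left (pow_le_pow_left₀ hR hRT 2) hc.le]
    · rw [S.c_insert_not h, S.T_insert hx, S.T_insert hx]
      simp only [h, false_and, if_false, add_zero]
      set r := S.T (F.filter (fun A => y ∉ S.pts A ∧ z ∉ S.pts A)) M l
      set t := S.T F M l
      set u := S.T (F.filter (fun A => x ∈ S.pts A)) M l
      set w := S.T ((F.filter (fun A => y ∉ S.pts A ∧ z ∉ S.pts A)).filter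
        (fun A => x ∈ S.pts A)) M l
      have hw : w ≤ u := S.T_mono (filter_subset_filter _ (filter_subset _ _)) _ _
      have hw0 : 0 ≤ w := S.T_nonneg _ _ _
      have h5 : w * (r + w) ≤ u * (t + u) :=
        mul_le_mul hw (by linarith) (by linarith) (by linarith)
      have h6 := mul_le_mul_of_nonneg_left h5 hc'.le
      nlinarith
  have h3 := mul_le_mul_of_nonneg_left h2 hlam.le
  unfold L
  linarith

/-- Pair sums are paid by the quadratic terms. -/
theorem pair_pay {lam : ℝ} (hlam : 0 < lam) (hlam1 : lam ≤ 1 / 5) {F : Finset ι}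
    {M : Finset V} {x y : V} (hxy : x ≠ y) (hx : x ∉ M) (hy : y ∉ M) :
    5 * S.P2 F M x y ≤ lam * (∑ l ∈ S.lines,
      (if x ∈ S.lp l ∧ y ∈ S.lp l then S.c M l * (S.T F M l) ^ 2 else 0)) + 1 / lam := by
  have hnn : 0 ≤ lam * (∑ l ∈ S.lines,
      (if x ∈ S.lp l ∧ y ∈ S.lp l then S.c M l * (S.T F M l) ^ 2 else 0)) := by
    apply mul_nonneg hlam.le
    apply sum_nonneg
    intro l _
    have := S.c_pos M l
    split_ifs
    · positivity
    · exact le_rfl
  have h5 : 5 ≤ 1 / lam := by
    rw [le_div_iff₀ hlam]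
    linarith
  rcases S.pair x y hxy with h | ⟨l, hl, hxl, hyl, h⟩
  · -- at most one set
    have h1 : S.P2 F M x y ≤ 1 := by
      unfold P2
      rw [← sum_filter]
      by_cases h2 : (F.filter (fun A => x ∈ S.pts A ∧ y ∈ S.pts A)).Nonempty
      · obtain ⟨B, hB⟩ := h2
        have hB' := (mem_filter.1 hB).2
        have h3 : F.filter (fun A => x ∈ S.pts A ∧ y ∈ S.pts A) = {B} := by
          ext A
          rw [mem_singleton]
          constructor
          · intro hA
            have hA' := (mem_filter.1 hA).2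
            exact h A B hA'.1 hA'.2 hB'.1 hB'.2
          · rintro rfl; exact hB
        rw [h3, sum_singleton]
        unfold a
        exact pow_le_one₀ (by norm_num) (by norm_num)
      · rw [not_nonempty_iff_eq_empty.1 h2]
        simp
    linarith
  · -- a common line
    have h1 : S.P2 F M x y ≤ S.T F M l := by
      unfold P2 T
      apply sum_le_sum
      intro A _
      have := S.a_pos M A
      by_cases h2 : x ∈ S.pts A ∧ y ∈ S.pts A
      · rw [if_pos h2, if_pos (h A h2.1 h2.2)]
      · rw [if_neg h2]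
        split_ifs
        · exact this.le
        · exact le_rfl
    have h2 : 9 ≤ S.c M l := by
      unfold c
      have h3 : 2 ≤ (S.lp l \ M).card := by
        have h4 : ({x, y} : Finset V) ⊆ S.lp l \ M := by
          intro w hw
          rw [mem_insert, mem_singleton] at hw
          rcases hw with rfl | rfl
          · simp [hxl, hx]
          · simp [hyl, hy]
        have := card_le_card h4
        rwa [card_pair hxy] at this
      calc (9 : ℝ) = 3 ^ 2 := by norm_num
        _ ≤ 3 ^ (S.lp l \ M).card := pow_le_pow_right₀ (by norm_num) h3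
    have h3 : S.c M l * (S.T F M l) ^ 2 ≤ ∑ l ∈ S.lines,
      (if x ∈ S.lp l ∧ y ∈ S.lp l then S.c M l * (S.T F M l) ^ 2 else 0) := by
      have h4 := single_le_sum (f := fun l => if x ∈ S.lp l ∧ y ∈ S.lp l then
        S.c M l * (S.T F M l) ^ 2 else 0) (s := S.lines) (fun l _ => by
          have := S.c_pos M l
          show 0 ≤ if x ∈ S.lp l ∧ y ∈ S.lp l then S.c M l * (S.T F M l) ^ 2 else 0
          split_ifs
          · positivity
          · exact le_rfl) hl
      have h5 : (if x ∈ S.lp l ∧ y ∈ S.lp l then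
        S.c M l * (S.T F M l) ^ 2 else 0) = S.c M l * (S.T F M l) ^ 2 := if_pos ⟨hxl, hyl⟩
      exact h5 ▸ h4
    have h4 : 9 * (S.T F M l) ^ 2 ≤ S.c M l * (S.T F M l) ^ 2 :=
      mul_le_mul_of_nonneg_right h2 (sq_nonneg _)
    have h6 : 5 * S.T F M l ≤ lam * (9 * (S.T F M l) ^ 2) + 1 / lam := by
      have h7 : 0 ≤ (1 / lam) * (3 * lam * S.T F M l - 5 / 6) ^ 2 := by positivity
      have h8 : (1 / lam) * (3 * lam * S.T F M l - 5 / 6) ^ 2 =
        lam * (9 * (S.T F M l) ^ 2) - 5 * S.T F M l + (25 / 36) * (1 / lam) := by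
        field_simp
        ring
      have h9 : 0 < 1 / lam := by positivity
      linarith
    have h10 := mul_le_mul_of_nonneg_left (h4.trans h3) hlam.le
    linarith

/-- **The round lemma.** -/
theorem round {lam : ℝ} (hlam : 0 < lam) (hlam1 : lam ≤ 1 / 5) (hK : lam * S.K * S.s ≤ 1)
    (hK3 : 3 * (lam * S.K) ≤ 1) {F : Finset ι} {M : Finset V} {x y z : V}
    (hcl : ∀ G, G ⊆ F → S.L lam G M ≤ S.L lam F M)
    (hx : x ∉ M) (hy : y ∉ M) (hz : z ∉ M) (hxy : x ≠ y) (hxz : x ≠ z)
    (hmy : S.L lam F (insert y M) ≤ S.L lam F (insert x M))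
    (hmz : S.L lam F (insert z M) ≤ S.L lam F (insert x M)) :
    S.L lam F M - 2 / lam ≤
      S.L lam (F.filter (fun A => y ∉ S.pts A ∧ z ∉ S.pts A)) (insert x M) := by
  have g1 := S.gain_loss lam (F := F) hy
  have g2 := S.gain_loss lam (F := F) hz
  have t := S.two_kills hlam (y := y) (z := z) hcl
  have i := S.interact hlam hK hK3 (F := F) (y := y) (z := z) hx
  have p1 := S.pair_pay hlam hlam1 (F := F) hxy hx hy
  have p2 := S.pair_pay hlam hlam1 (F := F) hxz hx hz
  have s1 := S.sum_sq_le (F := F) hy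
  have s2 := S.sum_sq_le (F := F) hz
  have s1' := mul_le_mul_of_nonneg_left s1 hlam.le
  have s2' := mul_le_mul_of_nonneg_left s2 hlam.le
  have q1 : 0 ≤ lam * ((S.K / 3 : ℝ) * S.P F M y) := by
    have : 0 ≤ S.P F M y := by
      unfold P
      apply sum_nonneg
      intro A _
      have := S.a_pos M A
      split_ifs
      · exact this.le
      · exact le_rfl
    positivity
  have q2 : 0 ≤ lam * ((S.K / 3 : ℝ) * S.P F M z) := by
    have : 0 ≤ S.P F M z := by
      unfold P
      apply sum_nonneg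
      intro A _
      have := S.a_pos M A
      split_ifs
      · exact this.le
      · exact le_rfl
    positivity
  have e : 2 / lam = 1 / lam + 1 / lam := by ring
  rw [e]
  nlinarith

/-- Maker's move alone does not decrease the potential. -/
theorem single {lam : ℝ} (hlam : 0 < lam) {F : Finset ι} {M : Finset V} {x : V}
    (hcl : ∀ G, G ⊆ F → S.L lam G M ≤ S.L lam F M) (hx : x ∉ M) :
    S.L lam F M ≤ S.L lam F (insert x M) := by
  have g1 := S.gain_loss lam (F := F) hx
  have h := hcl (F.filter (fun A => x ∉ S.pts A)) (filter_subset _ _)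
  have s1 := S.sum_sq_le (F := F) hx
  have s1' := mul_le_mul_of_nonneg_left s1 hlam.le
  have q1 : 0 ≤ lam * ((S.K / 3 : ℝ) * S.P F M x) := by
    have : 0 ≤ S.P F M x := by
      unfold P
      apply sum_nonneg
      intro A _
      have := S.a_pos M A
      split_ifs
      · exact this.le
      · exact le_rfl
    positivity
  nlinarith

end Sys

end Pool.Agent.Rect12.H40R
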