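import Pool.Agent.Rect12.H40Round
import Pool.Agent.Rect12.Defs

namespace Pool.Agent.Rect12.H40R

open Finset Pool.Agent.Rect12

variable {ι κ : Type} [DecidableEq ι] [DecidableEq κ] (S : Sys (ℕ × ℕ) ι κ)

/-- the invariant -/
def Good (N : ℕ) (lam : ℝ) (M B : Finset (ℕ × ℕ)) : Prop :=
  ∃ F : Finset ι, (∀ A ∈ F, Disjoint (S.pts A) B) ∧
    2 / lam * ((board N \ (M ∪ B)).card : ℝ) < S.L lam F M

theorem good_rule {N : ℕ} {lam : ℝ} (hlam : 0 < lam) (hlam1 : lam ≤ 1 / 5)
    (hK : lam * S.K * S.s ≤ 1) (hK3 : 3 * (lam * S.K) ≤ 1) :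
    MakerRule N (Good S N lam) := by
  intro M B hM hB hMB hG hne
  obtain ⟨F₀, hF₀, hL₀⟩ := hG
  obtain ⟨F, hFmem, hFmax⟩ := exists_max_image F₀.powerset (fun G => S.L lam G M)
    ⟨F₀, mem_powerset_self _⟩
  rw [mem_powerset] at hFmem
  have hcl : ∀ G, G ⊆ F → S.L lam G M ≤ S.L lam F M := fun G hG =>
    hFmax G (mem_powerset.2 (hG.trans hFmem))
  have hFd : ∀ A ∈ F, Disjoint (S.pts A) B := fun A hA => hF₀ A (hFmem hA)
  have hL : 2 / lam * ((board N \ (M ∪ B)).card : ℝ) < S.L lam F M :=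
    lt_of_lt_of_le hL₀ (hFmax F₀ (mem_powerset_self _))
  obtain ⟨x, hx, hxmax⟩ := exists_max_image (board N \ (M ∪ B))
    (fun v => S.L lam F (insert v M)) hne
  refine ⟨x, hx, ?_⟩
  intro b hb hbc
  have hxM : x ∉ M := fun h => (mem_sdiff.1 hx).2 (mem_union_left _ h)
  have hMx : M ∪ {x} = insert x M := by
    ext w; simp [or_comm]
  have hsub : board N \ ((M ∪ {x}) ∪ (B ∪ b)) ⊆ (board N \ (M ∪ B)).erase x := by
    intro w hw
    simp only [mem_sdiff, mem_union, mem_singleton, mem_erase] at hw ⊢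
    tauto
  have hcard : ((board N \ ((M ∪ {x}) ∪ (B ∪ b))).card : ℝ) + 1 ≤
      ((board N \ (M ∪ B)).card : ℝ) := by
    have h1 := card_le_card hsub
    rw [card_erase_of_mem hx] at h1
    have h2 : 0 < (board N \ (M ∪ B)).card := card_pos.2 hne
    have h3 : (board N \ ((M ∪ {x}) ∪ (B ∪ b))).card + 1 ≤ (board N \ (M ∪ B)).card := by omega
    exact_mod_cast h3
  have hpos : 0 < 2 / lam := by positivity
  have hfree : ∀ y ∈ b, y ∉ M ∧ x ≠ y ∧ y ∈ board N \ (M ∪ B) := by
    intro y hy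
    have := hb hy
    simp only [mem_sdiff, mem_union, mem_singleton] at this ⊢
    refine ⟨by tauto, ?_, by tauto⟩
    rintro rfl
    tauto
  have hmul := mul_le_mul_of_nonneg_left hcard hpos.le
  -- the general step
  have step : ∀ G : Finset ι, G ⊆ F → (∀ A ∈ G, ∀ y ∈ b, y ∉ S.pts A) →
      S.L lam F M - 2 / lam ≤ S.L lam G (insert x M) → Good S N lam (M ∪ {x}) (B ∪ b) := by
    intro G hGF hGb hGL
    refine ⟨G, ?_, ?_⟩
    · intro A hA
      rw [disjoint_union_right]
      refine ⟨hFd A (hGF hA), ?_⟩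
      rw [disjoint_right]
      intro y hy
      exact hGb A hA y hy
    · rw [hMx] at hmul ⊢
      linarith
  have hb2 : b.card ≤ 2 := by rw [hbc]; exact min_le_left _ _
  interval_cases hbn : b.card
  · -- no answer
    have hb0 : b = ∅ := card_eq_zero.1 hbn
    apply step F (Subset.refl _)
    · intro A _ y hy
      rw [hb0] at hy
      exact absurd hy (notMem_empty _)
    · have := S.single hlam hcl hxM
      linarith
  · obtain ⟨y, hy⟩ := card_eq_one.1 hbn
    have hyb : y ∈ b := by rw [hy]; exact mem_singleton_self _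
    obtain ⟨h1, h2, h3⟩ := hfree y hyb
    apply step (F.filter (fun A => y ∉ S.pts A ∧ y ∉ S.pts A)) (filter_subset _ _)
    · intro A hA w hw
      rw [hy, mem_singleton] at hw
      subst hw
      exact (mem_filter.1 hA).2.1
    · exact S.round hlam hlam1 hK hK3 hcl hxM h1 h1 h2 h2 (hxmax y h3) (hxmax y h3)
  · obtain ⟨y, z, hyz, hy⟩ := card_eq_two.1 hbn
    have hyb : y ∈ b := by rw [hy]; exact mem_insert_self _ _
    have hzb : z ∈ b := by rw [hy]; simp
    obtain ⟨h1, h2, h3⟩ := hfree y hyb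
    obtain ⟨h1', h2', h3'⟩ := hfree z hzb
    apply step (F.filter (fun A => y ∉ S.pts A ∧ z ∉ S.pts A)) (filter_subset _ _)
    · intro A hA w hw
      rw [hy, mem_insert, mem_singleton] at hw
      rcases hw with rfl | rfl
      · exact (mem_filter.1 hA).2.1
      · exact (mem_filter.1 hA).2.2
    · exact S.round hlam hlam1 hK hK3 hcl hxM h1 h1' h2 h2' (hxmax y h3) (hxmax z h3')

theorem good_end {N : ℕ} {lam : ℝ} (hlam : 0 < lam) (hpts : ∀ A, S.pts A ⊆ board N)
    {M B : Finset (ℕ × ℕ)} (hG : Good S N lam M B) (hend : board N \ (M ∪ B) = ∅) :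
    ∃ A, S.pts A ⊆ M := by
  obtain ⟨F, hF, hL⟩ := hG
  rw [hend] at hL
  simp only [card_empty, Nat.cast_zero, mul_zero] at hL
  have hQ : 0 ≤ S.Q F M := by
    unfold Sys.Q
    apply sum_nonneg
    intro l _
    have := S.c_pos M l
    positivity
  have hW : 0 < S.W lam F M := by
    unfold Sys.L at hL
    nlinarith
  have hne : F.Nonempty := by
    by_contra h
    rw [not_nonempty_iff_eq_empty] at h
    rw [h] at hW
    simp [Sys.W] at hW
  obtain ⟨A, hA⟩ := hne
  refine ⟨A, ?_⟩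
  intro v hv
  have h1 : v ∈ M ∪ B := by
    by_contra h
    have : v ∈ board N \ (M ∪ B) := mem_sdiff.2 ⟨hpts A hv, h⟩
    rw [hend] at this
    exact absurd this (notMem_empty _)
  rcases mem_union.1 h1 with h | h
  · exact h
  · exact absurd h (disjoint_left.1 (hF A hA) hv)

end Pool.Agent.Rect12.H40R
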