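import Pool.Agent.Rect12.BigSum

/-!
Parameters.
-/

set_option autoImplicit false
set_option linter.unusedVariables false
set_option linter.unusedSectionVars false
set_option maxHeartbeats 4000000

namespace Pool.Agent.Rect12

open Finset

section

lemma aux_term (N q m M1 K s : ℕ) (Λ : ℝ) (hN : 1 ≤ N) (hq : 2 ≤ q) (hΛ : 0 < Λ)
    (hm : 1 ≤ m) (hmM : m ≤ M1) (hK : 1 ≤ K)
    (hb : (K : ℝ) ^ 2 * ((3 * (M1 : ℝ)) ^ 2 * ((q : ℝ) * M1) ^ 8 * (N : ℝ) ^ 4) ≤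
      Λ * (3 : ℝ) ^ (q ^ 2 - s) / 3) :
    (K : ℝ) ^ (2 * m - 1) *
        ((2 * (m : ℝ) + 1) * (((q * m : ℕ) : ℝ) ^ 2) ^ (2 * m) * (N : ℝ) ^ (2 * m)) ^ 2 /
        (((3 : ℝ) ^ (q ^ 2 - s)) ^ m * Λ ^ (m - 1)) ≤ Λ * (1 / 3) ^ m := by
  have hm1 : (1 : ℝ) ≤ m := by exact_mod_cast hm
  have hmM1 : (m : ℝ) ≤ M1 := by exact_mod_cast hmM
  have hK1 : (1 : ℝ) ≤ K := by exact_mod_cast hK
  have hq0 : (0 : ℝ) ≤ q := by positivity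
  have h1 : (K : ℝ) ^ (2 * m - 1) ≤ ((K : ℝ) ^ 2) ^ m := by
    rw [← pow_mul]
    exact pow_le_pow_right₀ hK1 (by omega)
  have h2 : (2 * (m : ℝ) + 1) ^ 2 ≤ ((3 * (M1 : ℝ)) ^ 2) ^ m := by
    have h21 : (2 * (m : ℝ) + 1) ^ 2 ≤ (3 * (M1 : ℝ)) ^ 2 := by
      apply pow_le_pow_left₀ (by positivity)
      linarith
    refine h21.trans ?_
    apply le_self_pow₀ _ (by omega)
    apply one_le_pow₀
    linarith
  have h3 : (((q * m : ℕ) : ℝ) ^ 8) ^ m ≤ (((q : ℝ) * M1) ^ 8) ^ m := by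
    apply pow_le_pow_left₀ (by positivity)
    apply pow_le_pow_left₀ (by positivity)
    push_cast
    exact mul_le_mul_of_nonneg_left hmM1 hq0
  have h4 : ((2 * (m : ℝ) + 1) * (((q * m : ℕ) : ℝ) ^ 2) ^ (2 * m) * (N : ℝ) ^ (2 * m)) ^ 2 =
      (2 * (m : ℝ) + 1) ^ 2 * (((q * m : ℕ) : ℝ) ^ 8) ^ m * ((N : ℝ) ^ 4) ^ m := by
    have e1 : ∀ x : ℝ, ((x ^ 2) ^ (2 * m)) ^ 2 = (x ^ 8) ^ m := by
      intro x
      rw [← pow_mul, ← pow_mul, ← pow_mul]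
      congr 1
      ring
    have e2 : ∀ x : ℝ, (x ^ (2 * m)) ^ 2 = (x ^ 4) ^ m := by
      intro x
      rw [← pow_mul, ← pow_mul]
      congr 1
      ring
    rw [mul_pow, mul_pow, e1, e2]
  have hden : 0 < ((3 : ℝ) ^ (q ^ 2 - s)) ^ m * Λ ^ (m - 1) := by positivity
  rw [div_le_iff₀ hden, h4]
  have hΛm : Λ ^ m = Λ ^ (m - 1) * Λ := by
    rw [← pow_succ]
    congr 1
    omega
  have h5 : Λ * (1 / 3) ^ m * (((3 : ℝ) ^ (q ^ 2 - s)) ^ m * Λ ^ (m - 1)) =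
      (Λ * (3 : ℝ) ^ (q ^ 2 - s) / 3) ^ m := by
    rw [show Λ * (3 : ℝ) ^ (q ^ 2 - s) / 3 = Λ * (3 : ℝ) ^ (q ^ 2 - s) * (1 / 3) by ring,
      mul_pow, mul_pow, hΛm]
    ring
  rw [h5]
  calc (K : ℝ) ^ (2 * m - 1) *
        ((2 * (m : ℝ) + 1) ^ 2 * (((q * m : ℕ) : ℝ) ^ 8) ^ m * ((N : ℝ) ^ 4) ^ m)
      ≤ ((K : ℝ) ^ 2) ^ m * (((3 * (M1 : ℝ)) ^ 2) ^ m * (((q : ℝ) * M1) ^ 8) ^ m *
        ((N : ℝ) ^ 4) ^ m) := by
        apply mul_le_mul h1 _ (by positivity) (by positivity)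
        apply mul_le_mul_of_nonneg_right _ (by positivity)
        exact mul_le_mul h2 h3 (by positivity) (by positivity)
    _ = ((K : ℝ) ^ 2 * ((3 * (M1 : ℝ)) ^ 2 * ((q : ℝ) * M1) ^ 8 * (N : ℝ) ^ 4)) ^ m := by
        simp only [mul_pow]
    _ ≤ _ := pow_le_pow_left₀ (by positivity) hb m

lemma par_of_ineq (N q s e : ℕ) (hN : 1 ≤ N) (hq : 2 ≤ q) (hs3 : 3 ≤ s) (hs : s < q ^ 2)
    (hs1 : 2 * ((q ^ 2 + 2) * q) ^ 4 < 2 ^ s) (h2 : N ^ 2 * 3 ^ e ≤ 3 ^ (q ^ 2))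
    (h3 : 3 ^ q ≤ N) (h4 : e ≤ q)
    (h5 : 9 * (((q ^ 2 + 1) ^ s) ^ 2 * (q * (q ^ 2 * (q ^ 2 + 2))) ^ 8 *
      (3 * (q ^ 2 * (q ^ 2 + 2))) ^ 2 * 3 ^ s) ≤ 3 ^ e) :
    ∃ Λ : ℝ, Par N q s Λ (q ^ 2 + 2) := by
  have hNR : (1 : ℝ) ≤ N := by exact_mod_cast hN
  have hN0 : (0 : ℝ) < N := by linarith
  have hqq : q ≤ q ^ 2 := by nlinarith
  have h2R : (N : ℝ) ^ 2 * 3 ^ e ≤ 3 ^ (q ^ 2) := by exact_mod_cast h2
  have h3R : (3 : ℝ) ^ q ≤ N := by exact_mod_cast h3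
  have h3pos : (0 : ℝ) < 3 ^ (q ^ 2) := by positivity
  have h3e : (0 : ℝ) < 3 ^ e := by positivity
  set Λ : ℝ := (N : ℝ) ^ 4 * 3 ^ e / 3 ^ (q ^ 2 + 1) with hΛdef
  have hΛ : 0 < Λ := by positivity
  have hΛ1 : Λ * 3 ^ (q ^ 2 + 1) = (N : ℝ) ^ 4 * 3 ^ e := by
    rw [hΛdef]
    field_simp
  have hΛ3 : Λ * 3 * 3 ^ (q ^ 2) = (N : ℝ) ^ 4 * 3 ^ e := by
    rw [← hΛ1, pow_succ]
    ring
  have hL1 : Λ * 3 ≤ (N : ℝ) ^ 2 := by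
    have : Λ * 3 * 3 ^ (q ^ 2) ≤ (N : ℝ) ^ 2 * 3 ^ (q ^ 2) := by
      rw [hΛ3]
      calc (N : ℝ) ^ 4 * 3 ^ e = (N : ℝ) ^ 2 * ((N : ℝ) ^ 2 * 3 ^ e) := by ring
        _ ≤ (N : ℝ) ^ 2 * 3 ^ (q ^ 2) := mul_le_mul_of_nonneg_left h2R (by positivity)
    exact le_of_mul_le_mul_right this h3pos
  have hN2 : (N : ℝ) ^ 2 ≤ 3 ^ (q ^ 2) := by
    refine le_trans ?_ h2R
    have : (1 : ℝ) ≤ 3 ^ e := one_le_pow₀ (by norm_num)
    nlinarith [sq_nonneg (N : ℝ)]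
  refine ⟨Λ, ⟨hN, hq, hs, by omega, hΛ, hL1, ?_, ?_, ?_, ?_⟩⟩
  · -- hL2
    have : Λ * 3 ^ q * 3 ^ (q ^ 2 + 1) ≤ (N : ℝ) ^ 3 * 3 ^ (q ^ 2 + 1) := by
      calc Λ * 3 ^ q * 3 ^ (q ^ 2 + 1) = Λ * 3 ^ (q ^ 2 + 1) * 3 ^ q := by ring
        _ = (N : ℝ) ^ 4 * 3 ^ e * 3 ^ q := by rw [hΛ1]
        _ ≤ (N : ℝ) ^ 4 * 3 ^ e * N := mul_le_mul_of_nonneg_left h3R (by positivity)
        _ = (N : ℝ) ^ 3 * ((N : ℝ) ^ 2 * 3 ^ e) := by ring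
        _ ≤ (N : ℝ) ^ 3 * 3 ^ (q ^ 2) := mul_le_mul_of_nonneg_left h2R (by positivity)
        _ ≤ (N : ℝ) ^ 3 * 3 ^ (q ^ 2 + 1) := by
          apply mul_le_mul_of_nonneg_left _ (by positivity)
          exact pow_le_pow_right₀ (by norm_num) (by omega)
    exact le_of_mul_le_mul_right this (by positivity)
  · -- hL3
    have : Λ * 3 ^ (q ^ 2 - q) * 3 ^ (q ^ 2 + 1) ≤ (N : ℝ) ^ 4 * 3 ^ (q ^ 2 + 1) := by
      calc Λ * 3 ^ (q ^ 2 - q) * 3 ^ (q ^ 2 + 1) = Λ * 3 ^ (q ^ 2 + 1) * 3 ^ (q ^ 2 - q) := by ring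
        _ = (N : ℝ) ^ 4 * 3 ^ e * 3 ^ (q ^ 2 - q) := by rw [hΛ1]
        _ = (N : ℝ) ^ 4 * 3 ^ (e + (q ^ 2 - q)) := by rw [pow_add]; ring
        _ ≤ (N : ℝ) ^ 4 * 3 ^ (q ^ 2 + 1) := by
          apply mul_le_mul_of_nonneg_left _ (by positivity)
          exact pow_le_pow_right₀ (by norm_num) (by omega)
    exact le_of_mul_le_mul_right this (by positivity)
  · -- hsm
    have h : (2 : ℝ) * (((q ^ 2 + 2) * q : ℕ) : ℝ) ^ 4 < 2 ^ s := by exact_mod_cast hs1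
    have h2s : (0 : ℝ) < 2 ^ s := by positivity
    rw [one_div, inv_pow, ← div_eq_mul_inv, div_lt_one h2s]
    exact h
  · -- hbig
    set M1 : ℕ := q ^ 2 * (q ^ 2 + 2) with hM1
    set K : ℕ := (q ^ 2 + 1) ^ s with hK
    have hM1pos : 1 ≤ M1 := by
      rw [hM1]
      exact Nat.mul_pos (by positivity) (by omega)
    have hKpos : 1 ≤ K := Nat.one_le_pow _ _ (by omega)
    have hK2 : 2 * M1 ≤ K := by
      calc 2 * M1 ≤ (q ^ 2 + 1) ^ 3 := by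
            rw [hM1]
            have : 1 ≤ q ^ 2 := by nlinarith
            nlinarith [sq_nonneg (q ^ 2), Nat.zero_le (q ^ 2)]
        _ ≤ K := Nat.pow_le_pow_right (by omega) hs3
    have hsum := big_sum N q s (q ^ 2 + 2) M1 K Λ hN (by omega) hΛ (by omega) hM1pos le_rfl hK2
    have hb : (K : ℝ) ^ 2 * ((3 * (M1 : ℝ)) ^ 2 * ((q : ℝ) * M1) ^ 8 * (N : ℝ) ^ 4) ≤
        Λ * (3 : ℝ) ^ (q ^ 2 - s) / 3 := by
      have h5R : (9 : ℝ) * ((K : ℝ) ^ 2 * ((q : ℝ) * M1) ^ 8 * (3 * (M1 : ℝ)) ^ 2 * 3 ^ s) ≤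
          3 ^ e := by exact_mod_cast h5
      have h3s : (0 : ℝ) < 3 ^ s := by positivity
      have hsplit : (3 : ℝ) ^ (q ^ 2 - s) * 3 ^ s = 3 ^ (q ^ 2) := by
        rw [← pow_add]
        congr 1
        omega
      have key : (K : ℝ) ^ 2 * ((3 * (M1 : ℝ)) ^ 2 * ((q : ℝ) * M1) ^ 8 * (N : ℝ) ^ 4) *
          (9 * 3 ^ s) ≤ Λ * (3 : ℝ) ^ (q ^ 2 - s) / 3 * (9 * 3 ^ s) := by
        have e1 : Λ * (3 : ℝ) ^ (q ^ 2 - s) / 3 * (9 * 3 ^ s) = (N : ℝ) ^ 4 * 3 ^ e := by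
          rw [← hΛ3, ← hsplit]
          ring
        rw [e1]
        calc (K : ℝ) ^ 2 * ((3 * (M1 : ℝ)) ^ 2 * ((q : ℝ) * M1) ^ 8 * (N : ℝ) ^ 4) *
              (9 * 3 ^ s) = (N : ℝ) ^ 4 *
              (9 * ((K : ℝ) ^ 2 * ((q : ℝ) * M1) ^ 8 * (3 * (M1 : ℝ)) ^ 2 * 3 ^ s)) := by ring
          _ ≤ (N : ℝ) ^ 4 * 3 ^ e := mul_le_mul_of_nonneg_left h5R (by positivity)
      exact le_of_mul_le_mul_right key (by positivity)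
    have hterm : ∀ m ∈ Icc (q ^ 2 + 2) M1, (K : ℝ) ^ (2 * m - 1) *
        ((2 * (m : ℝ) + 1) * (((q * m : ℕ) : ℝ) ^ 2) ^ (2 * m) * (N : ℝ) ^ (2 * m)) ^ 2 /
        (((3 : ℝ) ^ (q ^ 2 - s)) ^ m * Λ ^ (m - 1)) ≤ Λ * (1 / 3) ^ m := by
      intro m hm
      rw [mem_Icc] at hm
      exact aux_term N q m M1 K s Λ hN hq hΛ (by omega) hm.2 hKpos hb
    have hsum2 := hsum.trans (Finset.sum_le_sum hterm)
    rw [← Finset.mul_sum] at hsum2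
    have hgeo : ∑ m ∈ Icc (q ^ 2 + 2) M1, (1 / 3 : ℝ) ^ m ≤ (1 / 3) ^ (q ^ 2 + 2) / (1 - 1 / 3) := by
      have := geom_sum_Ico_le_of_lt_one (x := (1 / 3 : ℝ)) (m := q ^ 2 + 2) (n := M1 + 1)
        (by norm_num) (by norm_num)
      exact this
    have hΛle : Λ ≤ 3 ^ (q ^ 2) / 3 := by
      rw [le_div_iff₀ (by norm_num)]
      exact hL1.trans hN2
    have h13 : (3 : ℝ) ^ (q ^ 2) * (1 / 3) ^ (q ^ 2 + 2) = 1 / 9 := by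
      rw [pow_add, one_div, inv_pow]
      field_simp
      norm_num
    have hfin : Λ * ∑ m ∈ Icc (q ^ 2 + 2) M1, (1 / 3 : ℝ) ^ m ≤ 1 / 18 := by
      calc Λ * ∑ m ∈ Icc (q ^ 2 + 2) M1, (1 / 3 : ℝ) ^ m
          ≤ (3 ^ (q ^ 2) / 3) * ((1 / 3) ^ (q ^ 2 + 2) / (1 - 1 / 3)) := by
            apply mul_le_mul hΛle hgeo (by positivity) (by positivity)
        _ = (3 : ℝ) ^ (q ^ 2) * (1 / 3) ^ (q ^ 2 + 2) / 2 := by ring
        _ = 1 / 18 := by rw [h13]; norm_num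
    linarith

end

section

/-- choice of the parameters -/
lemma params_ev (ε : ℝ) (hε : 0 < ε) (hε1 : ε ≤ 1) : ∃ N₀ : ℕ, ∀ N : ℕ, N₀ ≤ N →
    ∃ q s e : ℕ, (∀ q' : ℕ, Real.sqrt (2 * Real.logb 3 N) + ε ≤ q' → q ≤ q') ∧
      1 ≤ N ∧ 2 ≤ q ∧ 3 ≤ s ∧ s < q ^ 2 ∧ 2 * ((q ^ 2 + 2) * q) ^ 4 < 2 ^ s ∧
      N ^ 2 * 3 ^ e ≤ 3 ^ (q ^ 2) ∧ 3 ^ q ≤ N ∧ e ≤ q ∧
      9 * (((q ^ 2 + 1) ^ s) ^ 2 * (q * (q ^ 2 * (q ^ 2 + 2))) ^ 8 *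
        (3 * (q ^ 2 * (q ^ 2 + 2))) ^ 2 * 3 ^ s) ≤ 3 ^ e := by
  -- auxiliary bound
  have hl3 : ∀ k : ℕ, (k + 1) ^ 3 ≤ 8 * 2 ^ k := by
    intro k
    rcases Nat.lt_or_ge k 4 with hk | hk
    · interval_cases k <;> norm_num
    · induction k, hk using Nat.le_induction with
      | base => norm_num
      | succ n hn ih =>
        have h1 : (n + 1 + 1) ^ 3 ≤ 2 * (n + 1) ^ 3 := by
          have : ((n : ℤ) + 1 + 1) ^ 3 ≤ 2 * ((n : ℤ) + 1) ^ 3 := by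
            have hn' : (4 : ℤ) ≤ n := by exact_mod_cast hn
            nlinarith [mul_nonneg (sub_nonneg.mpr hn') (sub_nonneg.mpr hn'),
              mul_nonneg (mul_nonneg (sub_nonneg.mpr hn') (sub_nonneg.mpr hn')) (sub_nonneg.mpr hn')]
          exact_mod_cast this
        calc (n + 1 + 1) ^ 3 ≤ 2 * (n + 1) ^ 3 := h1
          _ ≤ 2 * (8 * 2 ^ n) := by omega
          _ = 8 * 2 ^ (n + 1) := by ring
  set L₀ : ℕ := ⌈1504 / ε⌉₊ with hL₀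
  set Q₀ : ℕ := 16 + 2 ^ L₀ with hQ₀
  refine ⟨3 ^ (Q₀ ^ 2), ?_⟩
  intro N hN
  have hN1 : 1 ≤ N := le_trans (Nat.one_le_pow _ _ (by norm_num)) hN
  have hNpos : (0 : ℝ) < N := by exact_mod_cast hN1
  set F : ℝ := Real.sqrt (2 * Real.logb 3 N) with hF
  have hlog : (Q₀ : ℝ) ^ 2 ≤ Real.logb 3 N := by
    rw [Real.le_logb_iff_rpow_le (by norm_num) hNpos]
    have : ((3 : ℝ) ^ ((Q₀ : ℝ) ^ 2)) = ((3 ^ (Q₀ ^ 2) : ℕ) : ℝ) := by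
      push_cast
      rw [← Real.rpow_natCast 3 (Q₀ ^ 2)]
      push_cast
      rfl
    rw [this]
    exact_mod_cast hN
  have hlog0 : 0 ≤ 2 * Real.logb 3 N := by
    have : (0 : ℝ) ≤ (Q₀ : ℝ) ^ 2 := by positivity
    linarith
  have hFsq : F ^ 2 = 2 * Real.logb 3 N := Real.sq_sqrt hlog0
  have hFQ : (Q₀ : ℝ) ≤ F := by
    apply Real.le_sqrt_of_sq_le
    have : (0 : ℝ) ≤ (Q₀ : ℝ) ^ 2 := by positivity
    linarith
  have hQ16 : (16 : ℝ) ≤ Q₀ := by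
    have : 16 ≤ Q₀ := Nat.le_add_right _ _
    exact_mod_cast this
  have hF16 : 16 ≤ F := hQ16.trans hFQ
  set q : ℕ := ⌈F + ε⌉₊ with hq
  have hq1 : F + ε ≤ q := Nat.le_ceil _
  have hq2 : (q : ℝ) < F + ε + 1 := Nat.ceil_lt_add_one (by linarith)
  have hqQ : Q₀ ≤ q := by
    have : (Q₀ : ℝ) ≤ q := by linarith
    exact_mod_cast this
  have hq16 : 16 ≤ q := (Nat.le_add_right _ _).trans hqQ
  set k : ℕ := Nat.log 2 q with hk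
  have hkL : L₀ ≤ k := by
    rw [hk]
    apply (Nat.le_log_iff_pow_le (by norm_num) (by omega)).mpr
    omega
  have hkq : 2 ^ k ≤ q := Nat.pow_log_le_self 2 (by omega)
  have hqk : q < 2 ^ (k + 1) := Nat.lt_pow_succ_log_self (by norm_num) q
  have hkltq : k < q := Nat.log_lt_self 2 (by omega)
  set e : ℕ := ⌊ε * q⌋₊ with he
  have heq : e ≤ q := by
    apply Nat.floor_le_of_le
    have : (0 : ℝ) ≤ q := Nat.cast_nonneg q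
    nlinarith
  have hek : (k + 1) * (84 * (k + 1) + 104) ≤ e := by
    apply Nat.le_floor
    have h1 : ((k : ℝ) + 1) ^ 3 ≤ 8 * q := by
      have h2 : (k + 1) ^ 3 ≤ 8 * q := (hl3 k).trans (by omega)
      exact_mod_cast h2
    have h3 : 1504 / ε ≤ (k : ℝ) + 1 := by
      have h4 : 1504 / ε ≤ (L₀ : ℝ) := Nat.le_ceil _
      have h5 : (L₀ : ℝ) ≤ k := by exact_mod_cast hkL
      linarith
    have h6 : 1504 ≤ ε * ((k : ℝ) + 1) := by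
      rw [div_le_iff₀ hε] at h3
      linarith
    have hk1 : (1 : ℝ) ≤ (k : ℝ) + 1 := by
      have : (0 : ℝ) ≤ k := Nat.cast_nonneg k
      linarith
    set x : ℝ := (k : ℝ) + 1 with hx
    push_cast
    rw [← hx]
    have h7 : 188 * x ^ 2 * 8 ≤ ε * x ^ 3 := by
      have : 0 ≤ x ^ 2 := by positivity
      nlinarith
    have h8 : ε * x ^ 3 ≤ 8 * (ε * q) := by nlinarith
    have h9 : x * (84 * x + 104) ≤ 188 * x ^ 2 := by nlinarith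
    linarith
  refine ⟨q, 12 * (k + 1) + 6, e, ?_, hN1, by omega, by omega, ?_, ?_, ?_, ?_, heq, ?_⟩
  · intro q' hq'
    exact Nat.ceil_le.mpr hq'
  · have : 12 * (k + 1) + 6 ≤ 12 * q + 6 := by omega
    nlinarith
  · have h1 : (q ^ 2 + 2) * q ≤ 2 * q ^ 3 := by nlinarith
    calc 2 * ((q ^ 2 + 2) * q) ^ 4 ≤ 2 * (2 * q ^ 3) ^ 4 := by gcongr
      _ = 32 * q ^ 12 := by ring
      _ ≤ 32 * (2 ^ (k + 1)) ^ 12 := by gcongr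
      _ = 2 ^ (12 * (k + 1) + 5) := by rw [← pow_mul, mul_comm (k + 1) 12, pow_add]; ring
      _ < 2 ^ (12 * (k + 1) + 6) := by
        apply Nat.pow_lt_pow_right (by norm_num); omega
  · have hr : ((N ^ 2 * 3 ^ e : ℕ) : ℝ) ≤ ((3 ^ (q ^ 2) : ℕ) : ℝ) := by
      push_cast
      have hN2 : (N : ℝ) = (3 : ℝ) ^ (Real.logb 3 N) :=
        (Real.rpow_logb (by norm_num) (by norm_num) hNpos).symm
      have hN3 : (N : ℝ) ^ 2 = (3 : ℝ) ^ (F ^ 2) := by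
        rw [hFsq]
        nth_rewrite 1 [hN2]
        rw [← Real.rpow_natCast, ← Real.rpow_mul (by norm_num)]
        congr 1
        push_cast
        ring
      rw [hN3, ← Real.rpow_natCast 3 e, ← Real.rpow_add (by norm_num), ← Real.rpow_natCast 3 (q ^ 2)]
      apply Real.rpow_le_rpow_of_exponent_le (by norm_num)
      push_cast
      have he1 : (e : ℝ) ≤ ε * q := Nat.floor_le (by positivity)
      have he2 : ε * q ≤ 2 * ε * F := by nlinarith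
      nlinarith
    exact_mod_cast hr
  · have hr : ((3 ^ q : ℕ) : ℝ) ≤ (N : ℝ) := by
      push_cast
      have hN2 : (N : ℝ) = (3 : ℝ) ^ (Real.logb 3 N) :=
        (Real.rpow_logb (by norm_num) (by norm_num) hNpos).symm
      rw [hN2, ← Real.rpow_natCast 3 q]
      apply Real.rpow_le_rpow_of_exponent_le (by norm_num)
      nlinarith
    exact_mod_cast hr
  · have hq3 : 3 ≤ q := by omega
    have h1 : q ^ 2 + 1 ≤ q ^ 3 := by nlinarith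
    have h2 : q ^ 2 + 2 ≤ q ^ 3 := by nlinarith
    have h3 : q ^ 2 * (q ^ 2 + 2) ≤ q ^ 5 := by
      calc q ^ 2 * (q ^ 2 + 2) ≤ q ^ 2 * q ^ 3 := by gcongr
        _ = q ^ 5 := by ring
    calc 9 * (((q ^ 2 + 1) ^ (12 * (k + 1) + 6)) ^ 2 * (q * (q ^ 2 * (q ^ 2 + 2))) ^ 8 *
        (3 * (q ^ 2 * (q ^ 2 + 2))) ^ 2 * 3 ^ (12 * (k + 1) + 6))
        ≤ q ^ 2 * (((q ^ 3) ^ (12 * (k + 1) + 6)) ^ 2 * (q * q ^ 5) ^ 8 *
        (q * q ^ 5) ^ 2 * q ^ (12 * (k + 1) + 6)) := by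
          have h9 : 9 ≤ q ^ 2 := by nlinarith
          gcongr
      _ = q ^ (84 * (k + 1) + 104) := by ring
      _ ≤ (2 ^ (k + 1)) ^ (84 * (k + 1) + 104) := by gcongr
      _ = 2 ^ ((k + 1) * (84 * (k + 1) + 104)) := by rw [← pow_mul]
      _ ≤ 3 ^ ((k + 1) * (84 * (k + 1) + 104)) := by gcongr; norm_num
      _ ≤ 3 ^ e := by
        apply Nat.pow_le_pow_right (by norm_num) hek

end

end Pool.Agent.Rect12
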