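import Pool.Agent.Rect12.Breaker
import Pool.Agent.Rect12.Param
import Pool.Agent.Rect12.H40Half

/-!
The two halves of the exact solution.
-/

set_option autoImplicit false
set_option linter.unusedVariables false

namespace Pool.Agent.Rect12

open Finset

theorem maker_half (ε : ℝ) (hε : 0 < ε) : ∃ N₀ : ℕ, ∀ N : ℕ, N₀ ≤ N → ∀ q : ℕ,
    (q : ℝ) ≤ Real.sqrt (2 * Real.logb 3 N) - ε → MakerWins N q := by
  obtain ⟨N₀, h⟩ := H40R.maker_rule_half ε hε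
  refine ⟨N₀, fun N hN q hq => ?_⟩
  obtain ⟨G, h0, hr, he⟩ := h N hN q hq
  exact makerWins_of_rule G h0 hr (fun M B _ _ _ hG hE => he M B hG hE)

lemma breakerWins_mono {N q q' : ℕ} (h : BreakerWins N q) (hq : q ≤ q') : BreakerWins N q' := by
  obtain ⟨τ, h1, h2⟩ := h
  refine ⟨τ, h1, fun h hp hf hu hown => h2 h hp hf hu ?_⟩
  obtain ⟨a, b, x, y, hx, hy, hxy⟩ := hown
  exact ⟨a, b, x, y, hx, hy, fun i j hi hj => hxy i j (hi.trans_le hq) (hj.trans_le hq)⟩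

theorem breaker_half (ε : ℝ) (hε : 0 < ε) : ∃ N₀ : ℕ, ∀ N : ℕ, N₀ ≤ N → ∀ q : ℕ,
    Real.sqrt (2 * Real.logb 3 N) + ε ≤ q → BreakerWins N q := by
  obtain ⟨N₀, h⟩ := params_ev (min ε 1) (lt_min hε one_pos) (min_le_right _ _)
  refine ⟨N₀, fun N hN q' hq' => ?_⟩
  obtain ⟨q, s, e, hmin, hN1, hq, hs3, hs, hs1, h2, h3, h4, h5⟩ := h N hN
  obtain ⟨Λ, hp⟩ := par_of_ineq N q s e hN1 hq hs3 hs hs1 h2 h3 h4 h5
  refine breakerWins_mono (breaker_main hp) (hmin q' ?_)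
  have : min ε 1 ≤ ε := min_le_left _ _
  linarith

end Pool.Agent.Rect12
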