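import Pool.Agent.Rect12.InvL
import Pool.Agent.Rect12.Certs

/-!
Trees.
-/

set_option autoImplicit false
set_option linter.unusedVariables false
set_option linter.unusedSectionVars false
set_option maxHeartbeats 4000000

namespace Pool.Agent.Rect12

open Finset

section

/-- the tree of a new lattice `A` which is contained in the hull of none of the components -/
lemma tree_ess {N q s m0 : ℕ} {Λ : ℝ} (hp : Par N q s Λ m0) {M B R : Finset (ℕ × ℕ)}
    {K : Finset Clu} (h : Sys N q s Λ m0 M B R K) (A : Idx) (hA : A ∈ fam N q)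
    (hAn : ∀ c ∈ K, A ∉ c.S) (b : Finset (ℕ × ℕ)) (hb : b ⊆ lat q A) (hbs : b.card ≤ s)
    (Q : Finset Clu) (hQ : Q ⊆ K)
    (hlink : ∀ c ∈ Q, ∃ A' ∈ c.S, ¬ Disjoint (lat q A') (lat q A))
    (hess : ∀ c ∈ Q, ¬ lat q A ⊆ hull q c.L) :
    ∃ (L : List Idx) (rp rest : Finset (ℕ × ℕ)), Cert q s L rp rest ∧ L.Nodup ∧ A ∈ L ∧
      (∀ A' ∈ L, A' = A ∨ ∃ c ∈ Q, A' ∈ c.L) ∧ (∀ c ∈ Q, ∀ A' ∈ c.L, A' ∈ L) ∧
      rp ⊆ lat q A \ b ∧ (∀ c ∈ Q, Disjoint rp (hull q c.L)) ∧
      (∀ z ∈ rest, ∃ c ∈ Q, z ∈ c.rp ∪ c.rest) ∧ Inv N q s Λ L (rp ∪ rest) ∧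
      L.length ≤ 1 + ∑ c ∈ Q, c.L.length := by
  classical
  revert hQ hlink hess
  refine Finset.induction_on Q ?_ ?_
  · intro _ _ _
    refine ⟨[A], lat q A \ b, ∅, Cert.leaf A b hb hbs, List.nodup_singleton A, by simp, ?_, ?_,
      Subset.rfl, ?_, ?_, ?_, ?_⟩
    · intro A' h'; left; simpa using h'
    · simp
    · simp
    · simp
    · rw [union_empty]; exact inv_leaf hp.hN hA hb hbs
    · simp
  · intro c Q hc ih hQ hlink hess
    obtain ⟨L, rp, rest, hcert, hnd, hAL, hL1, hL2, hrp, hrpd, hrest, hinv, hlen⟩ :=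
      ih (fun x hx => hQ (mem_insert_of_mem hx)) (fun x hx => hlink x (mem_insert_of_mem hx))
        (fun x hx => hess x (mem_insert_of_mem hx))
    have hcK : c ∈ K := hQ (mem_insert_self c Q)
    have hok := h.ok c hcK
    have hdisjL : ∀ A' ∈ L, A' ∉ c.L := by
      intro A' h1 h2
      rcases hL1 A' h1 with h3 | ⟨c', hc', h3⟩
      · rw [h3] at h2
        exact hAn c hcK (hok.ls _ h2)
      · have hcK' : c' ∈ K := hQ (mem_insert_of_mem hc')
        have hne : c' ≠ c := by rintro rfl; exact hc hc'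
        have hd := h.disj c' hcK' c hcK hne A' ((h.ok c' hcK').ls _ h3) A' (hok.ls _ h2)
        have hcard := card_lat (hok.sfam A' (hok.ls _ h2))
        rw [Finset.disjoint_self_iff_empty] at hd
        rw [hd, card_empty] at hcard
        have h2q := hp.hq
        have : 0 < q ^ 2 := by positivity
        omega
    have hC2 : c.rp ∪ c.rest ⊆ hull q c.L := by
      intro z hz
      obtain ⟨A', h1, h2⟩ := Cert.sub hok.cert z hz
      exact lat_subset_hull h1 h2
    have hrm : ∀ z ∈ rest, ∃ c' ∈ Q, ∃ A1 ∈ c'.L, z ∈ lat q A1 := by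
      intro z hz
      obtain ⟨c', hc', h1⟩ := hrest z hz
      obtain ⟨A1, h2, h3⟩ := Cert.sub (h.ok c' (hQ (mem_insert_of_mem hc'))).cert z h1
      exact ⟨c', hc', A1, h2, h3⟩
    have hrr : Disjoint rp rest := by
      rw [disjoint_left]
      intro z h1 h2
      obtain ⟨c', hc', A1, h3, h4⟩ := hrm z h2
      exact disjoint_left.1 (hrpd c' hc') h1 (lat_subset_hull h3 h4)
    have hr2 : Disjoint rest (c.rp ∪ c.rest) := by
      rw [disjoint_left]
      intro z h1 h2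
      obtain ⟨c', hc', A1, h3, h4⟩ := hrm z h1
      obtain ⟨A2, h5, h6⟩ := Cert.sub hok.cert z h2
      have hne : c' ≠ c := by rintro rfl; exact hc hc'
      have hcK' : c' ∈ K := hQ (mem_insert_of_mem hc')
      exact disjoint_left.1 (h.disj c' hcK' c hcK hne A1 ((h.ok c' hcK').ls _ h3) A2
        (hok.ls _ h5)) h4 h6
    have hne : (lat q A ∩ hull q c.L).Nonempty := by
      obtain ⟨A', h1, h2⟩ := hlink c (mem_insert_self c Q)
      rw [not_disjoint_iff] at h2
      obtain ⟨z, h3, h4⟩ := h2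
      exact ⟨z, mem_inter.2 ⟨h4, hok.shull A' h1 h3⟩⟩
    have hess' := hess c (mem_insert_self c Q)
    have hinv' := inv_att hp hA hAL (Cert.ne_nil hok.cert) hdisjL hinv hok.inv
      (hrp.trans sdiff_subset) hrr hr2 hC2 hne hess'
    refine ⟨L ++ c.L, rp \ hull q c.L, rest ∪ (c.rp ∪ c.rest), Cert.att hcert hok.cert,
      List.Nodup.append hnd hok.nodup (fun a h1 h2 => hdisjL a h1 h2),
      List.mem_append_left _ hAL, ?_, ?_, sdiff_subset.trans hrp, ?_, ?_, hinv', ?_⟩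
    · intro A' h'
      rcases List.mem_append.1 h' with h1 | h1
      · rcases hL1 A' h1 with h2 | ⟨c', hc', h2⟩
        · exact Or.inl h2
        · exact Or.inr ⟨c', mem_insert_of_mem hc', h2⟩
      · exact Or.inr ⟨c, mem_insert_self c Q, h1⟩
    · intro c' hc' A' h1
      rcases mem_insert.1 hc' with h2 | h2
      · rw [h2] at h1
        exact List.mem_append_right _ h1
      · exact List.mem_append_left _ (hL2 c' h2 A' h1)
    · intro c' hc'
      rcases mem_insert.1 hc' with h2 | h2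
      · rw [h2]
        exact sdiff_disjoint
      · exact disjoint_of_subset_left sdiff_subset (hrpd c' h2)
    · intro z hz
      rcases mem_union.1 hz with h1 | h1
      · obtain ⟨c', hc', h2⟩ := hrest z h1
        exact ⟨c', mem_insert_of_mem hc', h2⟩
      · exact ⟨c, mem_insert_self c Q, h1⟩
    · rw [List.length_append, sum_insert hc]
      omega

end

section

/-- the tree if the new lattice `A` is contained in the hull of the component `c1` -/
lemma tree_non {N q s m0 : ℕ} {Λ : ℝ} (hp : Par N q s Λ m0) {M B R : Finset (ℕ × ℕ)}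
    {K : Finset Clu} (h : Sys N q s Λ m0 M B R K) (A : Idx) (hA : A ∈ fam N q)
    (c1 : Clu) (hc1 : c1 ∈ K) (h1 : lat q A ⊆ hull q c1.L)
    (Q : Finset Clu) (hQ : Q ⊆ K) (hc1Q : c1 ∉ Q)
    (hlink : ∀ c ∈ Q, ∃ A' ∈ c.S, ¬ Disjoint (lat q A') (lat q A)) :
    ∃ (L : List Idx) (rp rest : Finset (ℕ × ℕ)), Cert q s L rp rest ∧ L.Nodup ∧
      (∀ A' ∈ L, A' ∈ c1.L ∨ ∃ c ∈ Q, A' ∈ c.L) ∧ (∀ A' ∈ c1.L, A' ∈ L) ∧
      (∀ c ∈ Q, ∀ A' ∈ c.L, A' ∈ L) ∧
      (∀ z ∈ rp ∪ rest, z ∈ c1.rp ∪ c1.rest ∨ ∃ c ∈ Q, z ∈ c.rp ∪ c.rest) ∧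
      Inv N q s Λ L (rp ∪ rest) ∧
      L.length ≤ c1.L.length + ∑ c ∈ Q, c.L.length := by
  classical
  induction Q using Finset.induction_on with
  | empty =>
    have ho := h.ok c1 hc1
    refine ⟨c1.L, c1.rp, c1.rest, ho.cert, ho.nodup, fun A' hA' => Or.inl hA',
      fun A' hA' => hA', ?_, fun z hz => Or.inl hz, ho.inv, by simp⟩
    intro c hc
    simp at hc
  | insert c Q hcQ ih =>
    have hcK : c ∈ K := hQ (mem_insert_self _ _)
    have hcc1 : c ≠ c1 := fun e => hc1Q (e ▸ mem_insert_self _ _)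
    obtain ⟨L, rp, rest, g1, g2, g3, g4, g5, g6, g7, g8⟩ :=
      ih (fun x hx => hQ (mem_insert_of_mem hx)) (fun hx => hc1Q (mem_insert_of_mem hx))
        (fun c' hc' => hlink c' (mem_insert_of_mem hc'))
    have ho := h.ok c hcK
    have ho1 := h.ok c1 hc1
    have hLS : ∀ A' ∈ L, ∃ c' ∈ K, c' ≠ c ∧ A' ∈ c'.S := by
      intro A' hA'
      rcases g3 A' hA' with h2 | ⟨c', hc', h2⟩
      · exact ⟨c1, hc1, hcc1.symm, ho1.ls _ h2⟩
      · have hc'K : c' ∈ K := hQ (mem_insert_of_mem hc')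
        exact ⟨c', hc'K, fun e => hcQ (e ▸ hc'), (h.ok c' hc'K).ls _ h2⟩
    have hpos : ∀ A' ∈ fam N q, (lat q A').Nonempty := by
      intro A' hA'
      rw [← Finset.card_pos, card_lat hA']
      have := hp.hq
      positivity
    have hdL : ∀ A' ∈ L, A' ∉ c.L := by
      intro A' hA' hA2
      obtain ⟨c', hc'K, hne, hS⟩ := hLS A' hA'
      have h4 := h.disj c' hc'K c hcK hne A' hS A' (ho.ls _ hA2)
      obtain ⟨z, hz⟩ := hpos A' ((h.ok c' hc'K).sfam _ hS)
      exact Finset.disjoint_left.1 h4 hz hz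
    have hC : Disjoint (rp ∪ rest) (c.rp ∪ c.rest) := by
      rw [Finset.disjoint_left]
      intro z hz1 hz2
      obtain ⟨A2, hA2, hzA2⟩ := ho.cert.sub z hz2
      rcases g6 z hz1 with h2 | ⟨c', hc', h2⟩
      · obtain ⟨A1, hA1, hzA1⟩ := ho1.cert.sub z h2
        exact Finset.disjoint_left.1 (h.disj c1 hc1 c hcK hcc1.symm A1 (ho1.ls _ hA1) A2
          (ho.ls _ hA2)) hzA1 hzA2
      · have hc'K : c' ∈ K := hQ (mem_insert_of_mem hc')
        obtain ⟨A1, hA1, hzA1⟩ := (h.ok c' hc'K).cert.sub z h2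
        exact Finset.disjoint_left.1 (h.disj c' hc'K c hcK (fun e => hcQ (e ▸ hc')) A1
          ((h.ok c' hc'K).ls _ hA1) A2 (ho.ls _ hA2)) hzA1 hzA2
    have hne : (hull q L ∩ hull q c.L).Nonempty := by
      obtain ⟨A', hA', hnd⟩ := hlink c (mem_insert_self _ _)
      rw [Finset.not_disjoint_iff] at hnd
      obtain ⟨z, hz1, hz2⟩ := hnd
      exact ⟨z, mem_inter.2 ⟨hull_mono g4 (h1 hz2), ho.shull A' hA' hz1⟩⟩
    refine ⟨L ++ c.L, ∅, (rp ∪ rest) ∪ (c.rp ∪ c.rest), Cert.mrg g1 ho.cert, ?_, ?_, ?_, ?_, ?_,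
      ?_, ?_⟩
    · exact List.Nodup.append g2 ho.nodup (fun A' hA' hA2 => hdL A' hA' hA2)
    · intro A' hA'
      rcases List.mem_append.1 hA' with h2 | h2
      · rcases g3 A' h2 with h3 | ⟨c', hc', h3⟩
        · exact Or.inl h3
        · exact Or.inr ⟨c', mem_insert_of_mem hc', h3⟩
      · exact Or.inr ⟨c, mem_insert_self _ _, h2⟩
    · intro A' hA'
      exact List.mem_append.2 (Or.inl (g4 A' hA'))
    · intro c' hc' A' hA'
      rcases mem_insert.1 hc' with h2 | h2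
      · subst h2
        exact List.mem_append.2 (Or.inr hA')
      · exact List.mem_append.2 (Or.inl (g5 c' h2 A' hA'))
    · intro z hz
      rw [Finset.empty_union] at hz
      rcases mem_union.1 hz with h2 | h2
      · rcases g6 z h2 with h3 | ⟨c', hc', h3⟩
        · exact Or.inl h3
        · exact Or.inr ⟨c', mem_insert_of_mem hc', h3⟩
      · exact Or.inr ⟨c, mem_insert_self _ _, h2⟩
    · rw [Finset.empty_union]
      exact inv_mrg hp g1.ne_nil ho.cert.ne_nil hdL g7 ho.inv hC hne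
    · rw [List.length_append, Finset.sum_insert hcQ]
      omega

end

end Pool.Agent.Rect12
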